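import Pool.Agent.R428.Q0.Fin
import Pool.Agent.R428.Q0.Dens
import Pool.Agent.R428.Q0.Cls
import Pool.Agent.R494.FG1

/-!
# The 2-part of the conjecture of Birch and Swinnerton-Dyer for all the twists of `X_0(49)` by products
# of primes of a bounded interval with a prescribed graph of quadratic residues

`E_D` is the quadratic twist by `D` of `X_0(49) : y² + x y = x³ - x² - 2 x - 1`, and
`z = #E_D(ℚ)_tors² L(E_D, 1) / (Ω ∏ c_p)`, which is zero or the order of `Ш(E_D/ℚ)` according to the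
conjecture.

Let `28 ∣ m` and let `q` be a prime number which is `1 mod 4`, inert in `ℚ(√-7)` and does not divide `m`.
The theorem: for every `k` there is a constant `C` such that for every class `r mod m`, prime to `m`,
`1 mod 4` and a square modulo `7`, there is `M = 1` or `M = q` such that for infinitely many `n` and for
**every** graph `G` on `k` vertices there are prime numbers `p_1 < ⋯ < p_k` in the class, in the interval
`[n, n + C]`, such that `p_j` is a nonsquare modulo `p_i` exactly when `{i, j}` is an edge of `G`, and the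
2-part of the conjecture is known for all the `2 ^ k` curves `E_{M ∏_{i ∈ T} p_i}`, and is read off from
the graph: if the number of the rooted spanning forests of the subgraph induced on `T` is odd, then `z` is
a unit at two, `L(E, 1) ≠ 0`, `E(ℚ)` is finite and `Ш(E/ℚ)[2^∞] = 0`; if it is even, then `z` is integral
and not a unit at every prime above two, and `E(ℚ)` is infinite or `Ш(E/ℚ)[2]` is not zero, of order at
least `2 ^ (#T - ρ)`, `ρ` the rank of the identity plus the Laplacian of the induced subgraph modulo two.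

Proof: the criterion of helper428 (`R428/Q0`, the file `TwoPartTwistsX49` of problem `MP_4a9ea6_nt`), with a
matrix over `𝔽₂` of the quadratic symbols of the prime factors and of the quartic symbols of `-7`; a
theorem of Maynard's type with prescribed quadratic symbols between the primes (`R494/QR8`), applied to
the primes coloured by the quartic symbol of `-7`, so that `M` depends on the colour only.
-/

set_option autoImplicit false

open NumberField NumberField.InfinitePlace IsDedekindDomain WeierstrassCurve MeasureTheory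

namespace Pool.Agent.Results.MP_9c97e9_nt.ResidueGraphTwists

open Pool.Agent.TH841.NF.D (Sha)
open Pool.Agent.TH841.SH.D (Pt)

/-- The quadratic twist by `D ≡ 1 mod 4` of `X_0(49) : y² + x y = x³ - x² - 2 x - 1`. -/
def twist (D : ℕ) : WeierstrassCurve ℤ := ⟨1, -((3 * D + 1) / 4), 0, -2 * D ^ 2, -D ^ 3⟩

/-- The curve over `ℚ`. -/
abbrev E (D : ℕ) : WeierstrassCurve ℚ := (twist D).map (Int.castRingHom ℚ)

/-- The equation is minimal at the place `v`: no change of variables over `ℚ` that keeps the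
coefficients integral at `v` decreases the order of the discriminant. -/
def MinimalAt (W : WeierstrassCurve ℚ) (v : HeightOneSpectrum (𝓞 ℚ)) : Prop :=
  ∀ C : VariableChange ℚ, v.valuation ℚ (C • W).a₁ ≤ 1 → v.valuation ℚ (C • W).a₂ ≤ 1 →
    v.valuation ℚ (C • W).a₃ ≤ 1 → v.valuation ℚ (C • W).a₄ ≤ 1 → v.valuation ℚ (C • W).a₆ ≤ 1 →
    v.valuation ℚ (C • W).Δ ≤ v.valuation ℚ W.Δ

/-- `W⁰(ℚ_v)`, the group of the points of `W` over the completion `ℚ_v` with nonsingular reduction: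
the point at infinity and the points `(x, y)` where `x` is not integral, or one of the partial
derivatives of `y² + a₁ x y + a₃ y - x³ - a₂ x² - a₄ x - a₆` is a unit at `(x, y)`.
Here `Pt W ℚ_v` is the group of the points of `W` over `ℚ_v`. -/
noncomputable def nonsing (W : WeierstrassCurve ℚ) (v : HeightOneSpectrum (𝓞 ℚ)) :
    AddSubgroup (Pt W (v.adicCompletion ℚ)) :=
  AddSubgroup.closure {P | ∀ x y h, P = Affine.Point.some x y h →
    1 < Valued.v x ∨
    Valued.v ((W.baseChange (v.adicCompletion ℚ)).a₁ * y -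
      (3 * x ^ 2 + 2 * (W.baseChange (v.adicCompletion ℚ)).a₂ * x +
        (W.baseChange (v.adicCompletion ℚ)).a₄)) = 1 ∨
    Valued.v (2 * y + (W.baseChange (v.adicCompletion ℚ)).a₁ * x +
      (W.baseChange (v.adicCompletion ℚ)).a₃) = 1}

/-- The Tamagawa number `c_v = [W(ℚ_v) : W⁰(ℚ_v)]` of a minimal equation. -/
noncomputable def c (W : WeierstrassCurve ℚ) (v : HeightOneSpectrum (𝓞 ℚ)) : ℕ :=
  (nonsing W v).index

/-- The product of the Tamagawa numbers. -/
noncomputable def Tam (W : WeierstrassCurve ℚ) : ℕ := ∏ᶠ v : HeightOneSpectrum (𝓞 ℚ), c W v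

/-- `4 x³ + b₂ x² + 2 b₄ x + b₆ = (2 y + a₁ x + a₃)²`. -/
def cubic (W : WeierstrassCurve ℤ) (x : ℝ) : ℝ := 4 * x ^ 3 + W.b₂ * x ^ 2 + 2 * W.b₄ * x + W.b₆

/-- `Ω = ∫_{W(ℝ)} |ω|` with `ω = dx / (2 y + a₁ x + a₃)`, as an integral over `x`: two real points lie
over each `x` with `cubic x > 0`. -/
noncomputable def Omega (W : WeierstrassCurve ℤ) : ℝ :=
  2 * ∫ x in {x : ℝ | 0 < cubic W x}, 1 / √(cubic W x)

open Classical in
/-- The order of the torsion subgroup of `W(K)`. -/
noncomputable def torsOrder {K : Type} [Field K] (W : WeierstrassCurve K) : ℕ :=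
  Nat.card (AddCommGroup.torsion W.toAffine.Point)

/-- The order of the Tate-Shafarevich group predicted by the formula, for the value `l` of the
L-function of `E_D` at `s = 1`: `#E_D(ℚ)_tors² l / (Ω ∏ c_v)`. -/
noncomputable def anOrder (D : ℕ) (l : ℂ) : ℂ :=
  l * (torsOrder (E D) : ℂ) ^ 2 / ((Omega (twist D) : ℝ) * (Tam (E D) : ℂ))

/-- The 2-part of the conjecture, in the case that `z` is a unit at two: the equation is minimal,
`L(E_D, s)` has an entire continuation `Λ` with `Λ 1 ≠ 0`, `E_D(ℚ)` is finite, the 2-primary part of `Ш`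
is zero, and the predicted order of `Ш` is a unit at all the primes above two. -/
def TwoPart (D : ℕ) : Prop :=
  (∀ v : HeightOneSpectrum (𝓞 ℚ), MinimalAt (E D) v) ∧
  Finite (E D).toAffine.Point ∧ (∀ (n : ℕ) (x : Sha (E D)), 2 ^ n • x = 0 → x = 0) ∧
    ∃ Λ : ℂ → ℂ, Differentiable ℂ Λ ∧ (∀ s : ℂ, 2 < s.re → Λ s = (E D).LSeries s) ∧ Λ 1 ≠ 0 ∧
      ∃ m : ℤ, Odd m ∧ _root_.IsIntegral ℤ (m * anOrder D (Λ 1)) ∧
        _root_.IsIntegral ℤ (m * (anOrder D (Λ 1))⁻¹)

/-- The second case: the equation is minimal, `L(E_D, s)` has an entire continuation `Λ`, the predicted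
order of `Ш` is integral and not a unit at every prime above two (it may be zero), and `E_D(ℚ)` is
infinite or `Ш(E_D/ℚ)` has an element of order two. -/
def EvenPart (D : ℕ) : Prop :=
  (∀ v : HeightOneSpectrum (𝓞 ℚ), MinimalAt (E D) v) ∧
  (Finite (E D).toAffine.Point → ∃ x : Sha (E D), x ≠ 0 ∧ x + x = 0) ∧
    ∃ Λ : ℂ → ℂ, Differentiable ℂ Λ ∧ (∀ s : ℂ, 2 < s.re → Λ s = (E D).LSeries s) ∧
      ∀ (Γ : Type) [LinearOrderedCommGroupWithZero Γ] (v : Valuation ℂ Γ), v 2 < 1 →
        v (anOrder D (Λ 1)) < 1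

open Classical in
/-- The identity plus the Laplacian of the subgraph of `G` induced on `T`, modulo two. Its determinant is
the number of the rooted spanning forests of this subgraph modulo two. -/
noncomputable def forest {k : ℕ} (G : SimpleGraph (Fin k)) (T : Finset (Fin k)) :
    Matrix T T (ZMod 2) :=
  Matrix.of fun i j => if i = j then 1 + ((T.filter fun l => G.Adj i l).card : ZMod 2)
    else if G.Adj i j then 1 else 0

/-- What the graph `G` says on the curve `E_D`, where the prime factors of `D` are, apart from a fixed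
one, indexed by `T`. -/
def Profile {k : ℕ} (G : SimpleGraph (Fin k)) (T : Finset (Fin k)) (D : ℕ) : Prop :=
  ((forest G T).det ≠ 0 → TwoPart D) ∧ ((forest G T).det = 0 → EvenPart D) ∧
    (Finite (E D).toAffine.Point →
      2 ^ (T.card - (forest G T).rank) ≤ {x : Sha (E D) | x + x = 0}.encard)

section proof

/-- `D` is squarefree and all its prime factors are `≡ 1 mod 4`. -/
def Adm (D : ℕ) : Prop := Squarefree D ∧ ∀ p ∈ D.primeFactors, p % 4 = 1

open Classical in
/-- The prime factors of `D` which are inert in `ℚ(√-7)`. -/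
noncomputable def inert (D : ℕ) : Finset ℕ := D.primeFactors.filter fun p => ¬ IsSquare (-7 : ZMod p)

open Classical in
/-- The prime factors of `D` which split in `ℚ(√-7)`. -/
noncomputable def split (D : ℕ) : Finset ℕ := D.primeFactors.filter fun p => IsSquare (-7 : ZMod p)

open Classical in
/-- `1` if `m` is not a square modulo `p`, and `0` if it is -/
noncomputable def nonsq (p m : ℕ) : ZMod 2 := if IsSquare (m : ZMod p) then 0 else 1

open Classical in
/-- `1` if `-7` is not a fourth power modulo `p`, and `0` if it is -/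
noncomputable def nonfourth (p : ℕ) : ZMod 2 := if ∃ y : ZMod p, y ^ 4 = -7 then 0 else 1

/-- The matrix over the field with two elements, with rows and columns indexed by the prime factors of
`D` which split in `ℚ(√-7)`: the entry at `(i, j)` is `nonsq i j` for `i ≠ j`, and the entry at `(i, i)`
is the sum of `nonfourth i` and of the `nonsq i l` for all the prime factors `l ≠ i` of `D`. -/
noncomputable def mat (D : ℕ) : Matrix (split D) (split D) (ZMod 2) := Matrix.of fun i j =>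
  if i = j then nonfourth i + ∑ l ∈ D.primeFactors.erase i, nonsq i l else nonsq i j

open Pool.Agent.Y698 Pool.Agent.R428.Q0

lemma E_eq {D j : ℕ} (hj : D = 1 + 4 * j) : E D = AX ℚ j := twZ_map hj ℚ

lemma cubic_eq {D j : ℕ} (hj : D = 1 + 4 * j) (x : ℝ) :
    cubic (twist D) x = psD (1 + 4 * j) x := by
  have h1 : (3 * (D : ℤ) + 1) / 4 = 1 + 3 * j := by
    rw [hj]
    push_cast
    omega
  unfold cubic twist WeierstrassCurve.b₂ WeierstrassCurve.b₄ WeierstrassCurve.b₆ psD
  simp only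
  rw [h1, hj]
  push_cast
  ring

lemma real_eq {D j : ℕ} (hj : D = 1 + 4 * j) : Omega (twist D) =
    ∫ x in {x : ℝ | 0 < psD (1 + 4 * j) x}, 2 / Real.sqrt (psD (1 + 4 * j) x) := by
  unfold Omega
  simp only [cubic_eq hj]
  rw [← integral_const_mul]
  congr 1
  funext x
  ring

lemma adm_mod {D : ℕ} (h : Adm D) : D % 4 = 1 := by
  have h1 := Pool.Agent.Y698.prod_mod_four (S := D.primeFactors) h.2
  rwa [Nat.prod_primeFactors_of_squarefree h.1] at h1

/-- an auxiliary prime number -/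
lemma exists_aux (D : ℕ) (hD : D ≠ 0) : ∃ r, Pool.Agent.Y698.Inq r ∧ ¬ r ∣ D := by
  have h1 : IsUnit ((5 : ℕ) : ZMod 28) := by
    rw [ZMod.isUnit_iff_coprime]
    norm_num
  obtain ⟨r, hr, hp, h2⟩ := Nat.forall_exists_prime_gt_and_eq_mod h1 D
  have h3 : r % 28 = 5 := by
    have := (ZMod.natCast_eq_natCast_iff' r 5 28).1 h2
    simpa using this
  refine ⟨r, ⟨hp, by omega, ?_⟩, fun h => ?_⟩
  · rw [sq7_iff hp (by omega)]
    omega
  · exact absurd (Nat.le_of_dvd (Nat.pos_of_ne_zero hD) h) (by omega)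

lemma nr_rat : nrRealPlaces ℚ = 1 ∧ nrComplexPlaces ℚ = 0 := by
  have h := InfinitePlace.card_add_two_mul_card_eq_rank ℚ
  rw [Module.finrank_self] at h
  omega

lemma rat_all (k : ℚ) : ∃ u : ℚ, k = u := ⟨k, (Rat.cast_id k).symm⟩

/-- the data of `D` -/
lemma union_eq (D : ℕ) : inert D ∪ split D = D.primeFactors := by
  classical
  unfold inert split
  rw [Finset.union_comm]
  exact Finset.filter_union_filter_not_eq _ _

lemma disj (D : ℕ) : Disjoint (inert D) (split D) := by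
  classical
  rw [Finset.disjoint_left]
  intro p h1 h2
  exact (Finset.mem_filter.1 h1).2 (Finset.mem_filter.1 h2).2

open Classical in
lemma inq {D : ℕ} (h : Adm D) : ∀ q ∈ inert D, Pool.Agent.Y698.Inq q := fun q hq =>
  ⟨Nat.prime_of_mem_primeFactors (Finset.mem_filter.1 hq).1, h.2 q (Finset.mem_filter.1 hq).1,
    (Finset.mem_filter.1 hq).2⟩

open Classical in
lemma spl {D : ℕ} (h : Adm D) : ∀ q ∈ split D, Pool.Agent.Y698.SG.Spl q := fun q hq =>
  ⟨Nat.prime_of_mem_primeFactors (Finset.mem_filter.1 hq).1, h.2 q (Finset.mem_filter.1 hq).1,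
    (Finset.mem_filter.1 hq).2⟩

lemma mat_eq (D : ℕ) : Pool.Agent.Y698.SG.mat (inert D) (split D) = mat D := by
  classical
  ext i j
  unfold Pool.Agent.Y698.SG.mat mat
  rw [Matrix.of_apply, Matrix.of_apply]
  by_cases hij : i = j
  · rw [if_pos hij, if_pos hij]
    have h1 : D.primeFactors.erase i = inert D ∪ (split D).erase i := by
      rw [← union_eq, Finset.erase_union_distrib, Finset.erase_eq_of_notMem
        (fun h => Finset.disjoint_left.1 (disj D) h i.2)]
    rw [h1, Finset.sum_union (Finset.disjoint_of_subset_right (Finset.erase_subset _ _) (disj D)),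
      ← add_assoc]
    rfl
  · rw [if_neg hij, if_neg hij]
    rfl

theorem core {D : ℕ} (h : Adm D) :
    (∀ v : HeightOneSpectrum (𝓞 ℚ), MinimalAt (E D) v) ∧
    (∃ t : ℕ, Odd t ∧ torsOrder (E D) = 2 * t) ∧
    Tam (E D) = 2 ^ (1 + (inert D).card + 2 * (split D).card) ∧
    ((Finite (E D).toAffine.Point ∧ ∀ x : Sha (E D), x + x = 0 → x = 0) ↔ (mat D).det ≠ 0) ∧
    ((mat D).det ≠ 0 → ∀ (n : ℕ) (x : Sha (E D)), 2 ^ n • x = 0 → x = 0) ∧
    (Finite (E D).toAffine.Point →
      2 ^ ((split D).card - (mat D).rank) ≤ {x : Sha (E D) | x + x = 0}.encard) ∧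
    ∃ Λ : ℂ → ℂ, Differentiable ℂ Λ ∧
      (∀ s : ℂ, 2 < s.re → Λ s = (E D).LSeries s) ∧
      (∃ m : ℤ, Odd m ∧ _root_.IsIntegral ℤ (m * anOrder D (Λ 1))) ∧
      (∀ (Γ : Type) [LinearOrderedCommGroupWithZero Γ] (v : Valuation ℂ Γ), v 2 < 1 →
        v (anOrder D (Λ 1)) ≤ 1 ∧ (v (anOrder D (Λ 1)) = 1 ↔ (mat D).det ≠ 0)) ∧
      ((mat D).det ≠ 0 → Λ 1 ≠ 0 ∧ ∃ m : ℤ, Odd m ∧ _root_.IsIntegral ℤ (m * anOrder D (Λ 1)) ∧
        _root_.IsIntegral ℤ (m * (anOrder D (Λ 1))⁻¹)) := by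
  classical
  have hm4 := adm_mod h
  obtain ⟨r, hr, hrD⟩ := exists_aux D h.1.ne_zero
  have hrf : Fact r.Prime := ⟨hr.pr⟩
  have hM : IsCyclotomicExtension {r} ℚ (CyclotomicField r ℚ) := Pool.Agent.Y698.cyc_inst r
  set Q := inert D with hQd
  set P := split D with hPd
  have hQ := inq h
  have hP := spl h
  have hd : DQ r Q P := ⟨hr, fun q hq => ⟨hQ q hq, by
    rintro rfl
    exact hrD (Nat.dvd_of_mem_primeFactors (Finset.mem_filter.1 hq).1)⟩, hP⟩
  have hDu : ∏ q ∈ Q ∪ P, q = D := by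
    rw [hQd, hPd, union_eq, Nat.prod_primeFactors_of_squarefree h.1]
  obtain ⟨j, hj'⟩ : ∃ j, D = 1 + 4 * j := ⟨D / 4, by omega⟩
  have hj : ∏ q ∈ Q ∪ P, q = 1 + 4 * j := hDu.trans hj'
  have hn : Module.finrank ℚ ℚ = 2 ^ 0 := by rw [Module.finrank_self, pow_zero]
  have hE := E_eq hj'
  have han : ∀ l : ℂ, anOrder D l = Pool.Agent.Y698.SG.quoT ℚ j l := by
    intro l
    unfold anOrder torsOrder
    rw [hE, real_eq hj']
    unfold Pool.Agent.Y698.SG.quoT Pool.Agent.Y698.SG.tnum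
    have hT : Tam (Pool.Agent.Y698.AX ℚ j) = ∏ᶠ v, Pool.Agent.Y698.tam (Pool.Agent.Y698.AX ℚ j) v := rfl
    rw [hT, Rat.numberField_discr, nr_rat.1, nr_rat.2, pow_one, pow_zero]
    generalize (∏ᶠ v, Pool.Agent.Y698.tam (Pool.Agent.Y698.AX ℚ j) v : ℕ) = t
    simp
  have hst : torsOrder (E D) = Pool.Agent.Y698.SG.tnum (Pool.Agent.Y698.AX ℚ j) := by
    unfold torsOrder Pool.Agent.Y698.SG.tnum
    rw [hE]
  have htam : Tam (E D) = 2 ^ (1 + Q.card + 2 * P.card) := by
    rw [hE]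
    have h1 := tam0 (CyclotomicField r ℚ) ℚ hn hd hj
    rw [← add_assoc] at h1
    exact h1
  have hmat := mat_eq D
  rw [← hmat]
  obtain ⟨Λ, h1, h2, h3⟩ := level0 (CyclotomicField r ℚ) ℚ hn hd hj
  simp only [han, hst]
  rw [hE]
  refine ⟨fun v => Pool.Agent.Y698.SG.minimal_E (CyclotomicField r ℚ) ℚ hr.ns
      (fun q hq => ⟨hd.gp q hq, hd.ne q hq⟩) hj v,
    Pool.Agent.Y698.SG.tnum_AX (CyclotomicField r ℚ) ℚ hr.ns j, by rw [← hE]; exact htam,
    ⟨fun h4 => conv0 (CyclotomicField r ℚ) ℚ hd hj h4.1 h4.2, fun h4 =>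
      ⟨mw_finite0 ℚ rat_all hQ hP h4 hj, fun x hx => sha_two0 ℚ rat_all hQ hP h4 hj x hx⟩⟩,
    fun h4 n x hx => sha_pow0 ℚ rat_all hQ hP h4 hj x n hx, ?_, Λ, h1, h2, ?_,
    fun Γ _ v hv => h3 Γ v hv, ?_⟩
  · intro hf
    obtain ⟨f, hfi, hf2⟩ := sha_card1 (CyclotomicField r ℚ) ℚ hd hj hf
    have h4 : Set.range f ⊆ {x : Sha (Pool.Agent.Y698.AX ℚ j) | x + x = 0} := by
      rintro _ ⟨x, rfl⟩
      exact hf2 x
    have h5 := hfi.encard_range.trans (Set.encard_le_encard h4)
    rw [ENat.card_eq_coe_fintype_card, Fintype.card_fin] at h5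
    have h6 : (2 ^ (P.card - (Pool.Agent.Y698.SG.mat Q P).rank) : ℕ∞) =
      ((2 ^ (P.card - (Pool.Agent.Y698.SG.mat Q P).rank) : ℕ) : ℕ∞) := by push_cast; rfl
    rw [h6]
    exact h5
  · exact Pool.Agent.Y698.int_of_val fun Γ _ v hv => (h3 Γ v hv).1
  · intro hC
    have hz : ∀ (Γ : Type) [LinearOrderedCommGroupWithZero Γ] (v : Valuation ℂ Γ), v 2 < 1 →
        v (Pool.Agent.Y698.SG.quoT ℚ j (Λ 1)) = 1 := fun Γ _ v hv => ((h3 Γ v hv).2).2 hC
    refine ⟨?_, ?_⟩
    · intro h0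
      refine Pool.Agent.Y698.SG.exists_val2 fun Γ _ v hv => ?_
      have h5 := hz Γ v hv
      rw [h0] at h5
      unfold Pool.Agent.Y698.SG.quoT at h5
      rw [zero_mul, zero_mul, zero_div, map_zero] at h5
      exact zero_ne_one h5
    · obtain ⟨m₁, hm₁, i₁⟩ := Pool.Agent.Y698.int_of_val
        (x := Pool.Agent.Y698.SG.quoT ℚ j (Λ 1)) fun Γ _ v hv => (hz Γ v hv).le
      obtain ⟨m₂, hm₂, i₂⟩ := Pool.Agent.Y698.int_of_val
        (x := (Pool.Agent.Y698.SG.quoT ℚ j (Λ 1))⁻¹) fun Γ _ v hv => by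
          rw [map_inv₀, hz Γ v hv, inv_one]
      refine ⟨m₁ * m₂, hm₁.mul hm₂, ?_, ?_⟩
      · have e : ((m₁ * m₂ : ℤ) : ℂ) * Pool.Agent.Y698.SG.quoT ℚ j (Λ 1) =
            (m₂ : ℂ) * ((m₁ : ℂ) * Pool.Agent.Y698.SG.quoT ℚ j (Λ 1)) := by
          push_cast; ring
        rw [e]
        exact IsIntegral.mul (isIntegral_algebraMap (R := ℤ) (A := ℂ) (x := m₂)) i₁
      · have e : ((m₁ * m₂ : ℤ) : ℂ) * (Pool.Agent.Y698.SG.quoT ℚ j (Λ 1))⁻¹ =
            (m₁ : ℂ) * ((m₂ : ℂ) * (Pool.Agent.Y698.SG.quoT ℚ j (Λ 1))⁻¹) := by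
          push_cast; ring
        rw [e]
        exact IsIntegral.mul (isIntegral_algebraMap (R := ℤ) (A := ℂ) (x := m₁)) i₂

/-- the 2-part of the conjecture holds in the nonsingular case -/
theorem two_of {D : ℕ} (h : Adm D) (hd : (mat D).det ≠ 0) : TwoPart D := by
  obtain ⟨hm, -, -, h4, h5, -, Λ, h6, h7, -, -, h8⟩ := core h
  obtain ⟨h9, h10⟩ := h8 hd
  exact ⟨hm, (h4.2 hd).1, h5 hd, Λ, h6, h7, h9, h10⟩

/-- the second case holds in the singular case -/
theorem even_of {D : ℕ} (h : Adm D) (hd : ¬ (mat D).det ≠ 0) : EvenPart D := by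
  obtain ⟨hm, -, -, h4, h5, -, Λ, h6, h7, h8, h9, -⟩ := core h
  refine ⟨hm, fun hf => ?_, Λ, h6, h7, fun Γ _ v hv => lt_of_le_of_ne (h9 Γ v hv).1 fun he =>
    hd ((h9 Γ v hv).2.1 he)⟩
  by_contra hcon
  push Not at hcon
  refine hd (h4.1 ⟨hf, fun x hx => ?_⟩)
  by_contra hx0
  exact hcon x hx0 hx

lemma forest_eq {k : ℕ} (G : SimpleGraph (Fin k)) (T : Finset (Fin k)) :
    forest G T = Pool.Agent.R494.FG.fm G T := rfl

open Finset in
/-- the matrix for the products of the primes of an interval -/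
theorem profile {k q m r : ℕ} (G : SimpleGraph (Fin k)) (T : Finset (Fin k)) {p : Fin k → ℕ}
    (hp : Function.Injective p) (hpp : ∀ i, (p i).Prime) (h28 : 28 ∣ m)
    (hpr : ∀ i, p i ≡ r [MOD m]) (hr4 : r % 4 = 1) (hr7 : r % 7 = 1 ∨ r % 7 = 2 ∨ r % 7 = 4)
    (hG : ∀ i j, i ≠ j → (G.Adj i j ↔ ¬ IsSquare ((p j : ℕ) : ZMod (p i))))
    (hq : q.Prime) (hq4 : q % 4 = 1) (hq7 : q % 7 = 3 ∨ q % 7 = 5 ∨ q % 7 = 6)
    (hqp : ∀ i, ¬ IsSquare ((q : ℕ) : ZMod (p i))) {M : ℕ}
    (hM : (M = 1 ∧ ∀ i, nonfourth (p i) = 1) ∨ (M = q ∧ ∀ i, nonfourth (p i) = 0)) :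
    Profile G T (M * ∏ i ∈ T, p i) := by
  classical
  have hp4 : ∀ i, p i % 4 = 1 := fun i => by
    have h6 : p i ≡ r [MOD 4] := (hpr i).of_dvd ((by norm_num : 4 ∣ 28).trans h28)
    rw [h6, hr4]
  have hp7 : ∀ i, p i % 7 = 1 ∨ p i % 7 = 2 ∨ p i % 7 = 4 := fun i => by
    have h6 : p i ≡ r [MOD 7] := (hpr i).of_dvd ((by norm_num : 7 ∣ 28).trans h28)
    rw [h6]
    exact hr7
  have hsq : ∀ i, IsSquare (-7 : ZMod (p i)) := fun i => (sq7_iff (hpp i) (hp4 i)).2 (hp7 i)
  have hqn : ¬ IsSquare (-7 : ZMod q) := by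
    rw [sq7_iff hq hq4]
    omega
  have hpq : ∀ i, p i ≠ q := by
    intro i h
    have h1 := hp7 i
    rw [h] at h1
    omega
  have hMsq : Squarefree (M : ℤ) := by
    rcases hM with ⟨rfl, _⟩ | ⟨rfl, _⟩
    · rw [Nat.cast_one]
      exact squarefree_one
    · rw [Int.squarefree_natCast]
      exact hq.squarefree
  have hMp : ∀ i, ¬ ((p i : ℕ) : ℤ) ∣ (M : ℤ) := by
    intro i h
    rw [Int.natCast_dvd_natCast] at h
    rcases hM with ⟨rfl, _⟩ | ⟨rfl, _⟩
    · exact (hpp i).one_lt.ne' (Nat.dvd_one.1 h)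
    · exact hpq i ((Nat.prime_dvd_prime_iff_eq (hpp i) hq).1 h)
  obtain ⟨h1, h2⟩ := Pool.Agent.R494.BS.pf_prod (M := (M : ℤ)) hMsq (p := p) (e := fun i => (p i : ℤ))
    (fun i => by simp) hp hpp hMp T
  have hcast : ((M : ℤ) * ∏ i ∈ T, (p i : ℤ)) = ((M * ∏ i ∈ T, p i : ℕ) : ℤ) := by push_cast; rfl
  rw [hcast] at h1 h2
  rw [Int.natAbs_natCast, Int.natAbs_natCast] at h2
  rw [Int.squarefree_natCast] at h1
  set D := M * ∏ i ∈ T, p i with hD
  have hMpf : M.primeFactors = if M = q then {q} else ∅ := by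
    rcases hM with ⟨rfl, _⟩ | ⟨rfl, _⟩
    · rw [if_neg (fun h => hq.one_lt.ne h), Nat.primeFactors_one]
    · rw [if_pos rfl, hq.primeFactors]
  have hadm : Adm D := by
    refine ⟨h1, fun x hx => ?_⟩
    rw [h2, hMpf, mem_union] at hx
    rcases hx with hx | hx
    · split_ifs at hx
      · rw [mem_singleton.1 hx]
        exact hq4
      · exact absurd hx (notMem_empty _)
    · obtain ⟨i, _, rfl⟩ := mem_image.1 hx
      exact hp4 i
  have hsplit : split D = T.image p := by
    unfold split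
    ext x
    rw [mem_filter, h2, hMpf, mem_union]
    constructor
    · rintro ⟨h3 | h3, h4⟩
      · split_ifs at h3
        · rw [mem_singleton.1 h3] at h4
          exact absurd h4 hqn
        · exact absurd h3 (notMem_empty _)
      · exact h3
    · intro h3
      refine ⟨Or.inr h3, ?_⟩
      obtain ⟨i, _, rfl⟩ := mem_image.1 h3
      exact hsq i
  have hnsq : ∀ i j, i ≠ j → nonsq (p i) (p j) = if G.Adj i j then 1 else 0 := by
    intro i j hij
    unfold nonsq
    by_cases hs : IsSquare ((p j : ℕ) : ZMod (p i))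
    · rw [if_pos hs, if_neg (fun h => (hG i j hij).1 h hs)]
    · rw [if_neg hs, if_pos ((hG i j hij).2 hs)]
  obtain ⟨e, he⟩ := Pool.Agent.R494.FG.fm_eq G T hp hsplit (mat D) (by
    intro i hi h
    unfold mat Pool.Agent.R494.FG.fm
    rw [Matrix.of_apply, Matrix.of_apply, if_pos rfl, if_pos rfl]
    have e1 : D.primeFactors.erase (p i) = M.primeFactors ∪ (T.erase i).image p := by
      rw [h2, erase_union_distrib, erase_eq_of_notMem, ← image_erase hp]
      intro h3
      rw [hMpf] at h3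
      split_ifs at h3
      · exact hpq i (mem_singleton.1 h3)
      · exact absurd h3 (notMem_empty _)
    have e2 : Disjoint M.primeFactors ((T.erase i).image p) := by
      rw [disjoint_left]
      intro x h3 h4
      obtain ⟨j, _, rfl⟩ := mem_image.1 h4
      rw [hMpf] at h3
      split_ifs at h3
      · exact hpq j (mem_singleton.1 h3)
      · exact absurd h3 (notMem_empty _)
    have e3 : ∑ l ∈ (T.erase i).image p, nonsq (p i) l =
        ((T.filter fun l => G.Adj i l).card : ZMod 2) := by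
      rw [sum_image fun a _ b _ h => hp h]
      have e4 : ∀ j ∈ T.erase i, nonsq (p i) (p j) = if G.Adj i j then 1 else 0 := fun j hj =>
        hnsq i j (ne_of_mem_erase hj).symm
      rw [sum_congr rfl e4, ← sum_filter, sum_const, nsmul_eq_mul, mul_one]
      congr 2
      ext j
      rw [mem_filter, mem_filter, mem_erase]
      constructor
      · rintro ⟨⟨_, h5⟩, h6⟩
        exact ⟨h5, h6⟩
      · rintro ⟨h5, h6⟩
        exact ⟨⟨h6.ne', h5⟩, h6⟩
    show nonfourth (p i) + ∑ l ∈ D.primeFactors.erase (p i), nonsq (p i) l = _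
    rw [e1, sum_union e2, e3, ← add_assoc]
    congr 1
    rcases hM with ⟨rfl, h3⟩ | ⟨rfl, h3⟩
    · rw [h3 i, Nat.primeFactors_one, sum_empty, add_zero]
    · rw [h3 i, hq.primeFactors, sum_singleton, zero_add]
      unfold nonsq
      rw [if_neg (hqp i)]) (by
    intro i hi j hj hij h h'
    unfold mat Pool.Agent.R494.FG.fm
    rw [Matrix.of_apply, Matrix.of_apply, if_neg (fun h3 => hij (hp (congrArg Subtype.val h3))),
      if_neg (fun h3 => hij (congrArg Subtype.val h3))]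
    exact hnsq i j hij)
  obtain ⟨hdet, hrank⟩ := Pool.Agent.R494.FG.det_rank e he
  refine ⟨fun h => two_of hadm ?_, fun h => even_of hadm ?_, fun hf => ?_⟩
  · rw [hdet]
    exact h
  · rw [hdet, not_not]
    exact h
  · have h3 := (core hadm).2.2.2.2.2.1 hf
    have h4 : (split D).card = T.card := by
      rw [hsplit, card_image_of_injective _ hp]
    rw [h4, hrank] at h3
    exact h3

end proof

/-- **The 2-part of the conjecture for all the twists of `X_0(49)` by the products of primes of a bounded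
interval with any given graph of quadratic residues.** -/
theorem result : ∀ k m q : ℕ, 0 < m → 28 ∣ m → q.Prime → q % 4 = 1 →
    (q % 7 = 3 ∨ q % 7 = 5 ∨ q % 7 = 6) → ¬ q ∣ m →
    ∃ C : ℕ, ∀ r : ℕ, r.Coprime m → r % 4 = 1 → (r % 7 = 1 ∨ r % 7 = 2 ∨ r % 7 = 4) →
      ∃ M : ℕ, (M = 1 ∨ M = q) ∧
        {n : ℕ | ∀ G : SimpleGraph (Fin k), ∃ p : Fin k → ℕ, StrictMono p ∧
          (∀ i, (p i).Prime ∧ p i ≡ r [MOD m] ∧ n ≤ p i ∧ p i ≤ n + C) ∧
          (∀ i j, i ≠ j → (G.Adj i j ↔ ¬ IsSquare ((p j : ℕ) : ZMod (p i)))) ∧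
          ∀ T : Finset (Fin k), Profile G T (M * ∏ i ∈ T, p i)}.Infinite := by
  classical
  intro k m q hm h28 hq hq4 hq7 hqm
  obtain ⟨C, hC⟩ := Pool.Agent.R494.FG.primesG k m q 2 hm ((by norm_num : 4 ∣ 28).trans h28)
    (by norm_num) hq (by rintro rfl; omega) hqm
  refine ⟨C, fun r hr hr4 hr7 => ?_⟩
  obtain ⟨s, hs⟩ := hC r hr hr4 fun x => if nonfourth x = 1 then 1 else 0
  have h01 : ∀ x, nonfourth x = 0 ∨ nonfourth x = 1 := by
    intro x
    unfold nonfourth
    split_ifs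
    · exact Or.inl rfl
    · exact Or.inr rfl
  by_cases h1 : s = 1
  · refine ⟨1, Or.inl rfl, hs.mono fun n hn G => ?_⟩
    obtain ⟨p, hp, h3, h5⟩ := hn G
    refine ⟨p, hp, fun i => ⟨(h3 i).1, (h3 i).2.1, (h3 i).2.2.1, (h3 i).2.2.2.1⟩, h5, fun T => ?_⟩
    refine profile G T hp.injective (fun i => (h3 i).1) h28 (fun i => (h3 i).2.1) hr4 hr7 h5 hq hq4 hq7
      (fun i => (h3 i).2.2.2.2.2) (Or.inl ⟨rfl, fun i => ?_⟩)
    have h6 := (h3 i).2.2.2.2.1
    rw [h1] at h6
    by_contra h7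
    rw [if_neg h7] at h6
    exact absurd h6 (by decide)
  · refine ⟨q, Or.inr rfl, hs.mono fun n hn G => ?_⟩
    obtain ⟨p, hp, h3, h5⟩ := hn G
    refine ⟨p, hp, fun i => ⟨(h3 i).1, (h3 i).2.1, (h3 i).2.2.1, (h3 i).2.2.2.1⟩, h5, fun T => ?_⟩
    refine profile G T hp.injective (fun i => (h3 i).1) h28 (fun i => (h3 i).2.1) hr4 hr7 h5 hq hq4 hq7
      (fun i => (h3 i).2.2.2.2.2) (Or.inr ⟨rfl, fun i => ?_⟩)
    have h6 := (h3 i).2.2.2.2.1
    rcases h01 (p i) with h7 | h7
    · exact h7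
    · rw [if_pos h7] at h6
      exact absurd h6.symm h1

end Pool.Agent.Results.MP_9c97e9_nt.ResidueGraphTwists
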