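import Pool.Agent.R338.EQ.X14a
import Pool.Agent.Results.MP_4a9ea6_nt.TwoPartTwistsX14

/-!
The 2-part of the formula at the central point for the quadratic twists of the non-CM curve `X_0(14)`
by integers with a FIXED number of prime factors: the exact proportion, at every finite level, with a
power saving, and uniformly in boxes.

Let `n` residue classes modulo `56` be given, `s` of them consisting of primes that split completely
in `ℚ(√-1, √2, √-7)`, and `t ≥ 1` of primes that are inert in `ℚ(√2)` and in `ℚ(√-7)`, an even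
number of the latter being `5` modulo `8`.  For the tuples of distinct primes `p_i ≤ X_i` in these
classes, let `D = ± p_1 ⋯ p_n ≡ 1 (mod 4)`, and let `E_D` be the twist of `X_0(14)` by `D`.  Then
`E_D(ℚ)` is finite, `Ш(E_D/ℚ)[2^∞] = 0`, `L(E_D, s)` is entire, `L(E_D, 1) ≠ 0`, and the order of `Ш`
predicted by the formula is a rational number which is a unit at `2` (the 2-part of the formula, with
`Ш` of odd order), for the proportion `P(s) = ∏_{i < (s+1)/2} (1 - 2^{-(2i+1)})` of the tuples, up to a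
relative error `C z^{-1/24}`, where `z` is the least of the `X_i`, all `X_i` being at most
`exp(z^{1/(24n)})`.  So `P(1) = P(2) = 1/2`, `P(3) = P(4) = 7/16`, ...

The criterion for a single `D` is that of `MP_4a9ea6_nt/TwoPartTwistsX14` (helper428 with many
others); the bilinear estimate for quadratic symbols is of helper710, the equidistribution of the
symbols of helper356, the linear algebra of helpers 219 and 839.
-/

set_option autoImplicit false

open Finset Function

namespace Pool.Agent.Results.MP_9c97e9_nt.FixedNumberOfPrimes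

open Pool.Agent.Results.MP_4a9ea6_nt.TwoPartTwistsX14 (twist TwoPart NoSelmer Adm good_iff criterion)

/-- a class of primes congruent to `1` modulo `8` that split in `ℚ(√-7)` -/
def SplitClass (a : ℕ) : Prop := a % 8 = 1 ∧ (a % 7 = 1 ∨ a % 7 = 2 ∨ a % 7 = 4)

/-- a class of primes inert in `ℚ(√2)` and in `ℚ(√-7)` -/
def InertClass (a : ℕ) : Prop := (a % 8 = 3 ∨ a % 8 = 5) ∧ (a % 7 = 3 ∨ a % 7 = 5 ∨ a % 7 = 6)

open Classical in
/-- the number of the split classes -/
noncomputable def splitCount {n : ℕ} (a : Fin n → ℕ) : ℕ := (univ.filter fun i => SplitClass (a i)).card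

open Classical in
/-- `n` split or inert classes, at least one of them inert, an even number of them `5` modulo `8` -/
def Classes {n : ℕ} (a : Fin n → ℕ) : Prop :=
  (∀ i, SplitClass (a i) ∨ InertClass (a i)) ∧ (∃ i, InertClass (a i)) ∧
    Even (univ.filter fun i => a i % 8 = 5).card

open Classical in
/-- the tuples of distinct primes `p_i ≤ X_i`, `p_i ≡ a_i` modulo `56`, `p_i ≠ 3` -/
noncomputable def Box {n : ℕ} (a X : Fin n → ℕ) : Finset (Fin n → ℕ) :=
  (Fintype.piFinset fun i => (range (X i + 1)).filter fun p =>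
    p.Prime ∧ p ≠ 3 ∧ p % 56 = a i % 56).filter Injective

/-- the discriminant `± p_1 ⋯ p_n ≡ 1 (mod 4)` -/
def disc {n : ℕ} (p : Fin n → ℕ) : ℤ :=
  if (∏ i, p i) % 4 = 1 then ((∏ i, p i : ℕ) : ℤ) else -((∏ i, p i : ℕ) : ℤ)

/-- the proportion `∏_{i < (s+1)/2} (1 - 2^{-(2i+1)})` -/
noncomputable def P (s : ℕ) : ℝ := ∏ i ∈ range ((s + 1) / 2), (1 - (1 / 2 : ℝ) ^ (2 * i + 1))

theorem mem_Box {n : ℕ} {a X : Fin n → ℕ} {p : Fin n → ℕ} : p ∈ Box a X ↔
    (∀ i, p i ≤ X i ∧ (p i).Prime ∧ p i ≠ 3 ∧ p i % 56 = a i % 56) ∧ Injective p := by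
  unfold Box
  rw [mem_filter, Fintype.mem_piFinset]
  refine and_congr_left fun _ => forall_congr' fun i => ?_
  rw [mem_filter, mem_range]
  exact and_congr_left fun _ => by omega

theorem natAbs_disc {n : ℕ} (p : Fin n → ℕ) : (disc p).natAbs = ∏ i, p i := by
  unfold disc
  split_ifs
  · exact Int.natAbs_natCast _
  · rw [Int.natAbs_neg]
    exact Int.natAbs_natCast _

theorem primeFactors_disc {n : ℕ} {a X : Fin n → ℕ} {p : Fin n → ℕ} (hp : p ∈ Box a X) :
    (disc p).natAbs.primeFactors = univ.image p := by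
  rw [mem_Box] at hp
  rw [natAbs_disc]
  have h : ∏ i, p i = ∏ q ∈ univ.image p, q := by
    rw [prod_image fun x _ y _ h => hp.2 h]
  rw [h]
  refine Nat.primeFactors_prod fun q hq => ?_
  obtain ⟨i, -, rfl⟩ := mem_image.1 hq
  exact (hp.1 i).2.1

theorem sqf {n : ℕ} {p : Fin n → ℕ} (hp : ∀ i, (p i).Prime) (hi : Injective p) :
    Squarefree (∏ i, p i) := by
  refine Finset.squarefree_prod_of_pairwise_isCoprime (fun i _ j _ hij => ?_)
    fun i _ => (hp i).squarefree
  exact Nat.coprime_iff_isRelPrime.1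
    ((Nat.coprime_primes (hp i) (hp j)).2 fun h => hij (hi h))

theorem cop {a : ℕ} (h1 : ¬ 2 ∣ a) (h2 : ¬ 7 ∣ a) : Nat.Coprime a 56 := by
  have h3 : Nat.Coprime a 2 := ((Nat.Prime.coprime_iff_not_dvd (by norm_num)).2 h1).symm
  have h4 : Nat.Coprime a 7 := ((Nat.Prime.coprime_iff_not_dvd (by norm_num)).2 h2).symm
  have h5 : (56 : ℕ) = 2 ^ 3 * 7 := by norm_num
  rw [h5]
  exact Nat.Coprime.mul_right (Nat.Coprime.pow_right 3 h3) h4

theorem sqf_disc {n : ℕ} {a X : Fin n → ℕ} {p : Fin n → ℕ} (hp : p ∈ Box a X) :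
    Squarefree (∏ i, p i) := by
  rw [mem_Box] at hp
  exact sqf (fun i => (hp.1 i).2.1) hp.2

theorem adm {n : ℕ} {a X : Fin n → ℕ} (ha : Classes a) {p : Fin n → ℕ} (hp : p ∈ Box a X) :
    Adm (disc p) := by
  have hpf := primeFactors_disc hp
  rw [natAbs_disc] at hpf
  have hb := mem_Box.1 hp
  obtain ⟨h1, -, h3⟩ := ha
  have hS : ∀ r : ℕ, (univ.image p).filter (fun q => q % 8 = r) =
      (univ.filter fun i => a i % 8 = r).image p := by
    intro r
    ext q
    simp only [mem_filter, mem_image, mem_univ, true_and]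
    constructor
    · rintro ⟨⟨i, rfl⟩, h⟩
      have := (hb.1 i).2.2.2
      exact ⟨i, by omega, rfl⟩
    · rintro ⟨i, hi, rfl⟩
      have := (hb.1 i).2.2.2
      exact ⟨⟨i, rfl⟩, by omega⟩
  have hcl : Y703.CQ.Cl {3, 5} {0, 1} (∏ i, p i).primeFactors := by
    rw [hpf]
    refine ⟨?_, ?_, ?_⟩
    · intro q hq
      obtain ⟨i, -, rfl⟩ := mem_image.1 hq
      obtain ⟨k1, k2, k3, k4⟩ := hb.1 i
      rcases h1 i with h | h
      · refine Or.inl ⟨k2, ?_, ?_⟩
        · have := h.1
          omega
        · have := h.2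
          omega
      · refine Or.inr ⟨k2, k3, ?_, ?_⟩
        · have := h.1
          rw [mem_insert, mem_singleton]
          omega
        · have := h.2
          omega
    · have h5 := hS 5
      have e : ((univ.image p).filter fun q => q % 8 = 5).card =
          (univ.filter fun i => a i % 8 = 5).card := by
        rw [h5, card_image_of_injective _ hb.2]
      rw [e]
      rw [Nat.even_iff] at h3
      convert h3 using 3
    · rw [mem_insert, mem_singleton]
      omega
  obtain ⟨D, hD, hDn⟩ := Y703.CQ.cl_adm (sqf_disc hp) hcl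
  have e : D = disc p := by
    have h4 := hD.2.1
    have h5 : (D.natAbs : ℤ) = ((∏ i, p i : ℕ) : ℤ) := by rw [hDn]
    unfold disc
    split_ifs with h
    · omega
    · omega
  rw [← e]
  exact hD

theorem disc_ne_one {n : ℕ} {a X : Fin n → ℕ} (ha : Classes a) {p : Fin n → ℕ}
    (hp : p ∈ Box a X) : disc p ≠ 1 := by
  intro h
  have h1 := natAbs_disc p
  rw [h] at h1
  obtain ⟨i0, -⟩ := ha.2.1
  have h2 := (mem_Box.1 hp).1 i0
  have h3 : p i0 ∣ ∏ i, p i := dvd_prod_of_mem _ (mem_univ _)
  rw [← h1] at h3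
  have h4 := h2.2.1.one_lt
  have h5 : p i0 = 1 := Nat.dvd_one.1 h3
  omega

open Classical in
/-- the number of the tuples of the box such that the 2-part of the formula holds for `E_D`, the
predicted order of `Ш` being a unit at `2` -/
noncomputable def good {n : ℕ} (a X : Fin n → ℕ) : ℕ :=
  ((Box a X).filter fun p => TwoPart (twist (disc p))).card

theorem result (n : ℕ) (a : Fin n → ℕ) (ha : Classes a) :
    (∀ X : Fin n → ℕ, ∀ p ∈ Box a X, Adm (disc p) ∧ (disc p).natAbs = ∏ i, p i ∧
      (TwoPart (twist (disc p)) ↔ NoSelmer (disc p))) ∧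
    ∃ C : ℝ, ∀ (X : Fin n → ℕ) (z : ℕ), 2 ≤ z → (∀ i, z ≤ X i) →
      (∀ i, Real.log (X i) ≤ (z : ℝ) ^ (1 / (24 * n : ℝ))) →
      |(good a X : ℝ) - P (splitCount a) * ((Box a X).card : ℝ)| ≤
        C * (z : ℝ) ^ (-(1 / 24 : ℝ)) * ((Box a X).card : ℝ) := by
  classical
  refine ⟨fun X p hp => ⟨adm ha hp, natAbs_disc p, ?_⟩, ?_⟩
  · have h1 := (criterion (adm ha hp) (disc_ne_one ha hp)).2.2
    exact h1.2.symm.trans h1.1.symm
  have hcop : ∀ i, Nat.Coprime (a i) 56 := by
    intro i
    have h1 : ¬ 2 ∣ a i := by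
      rcases ha.1 i with h | h
      · have := h.1
        omega
      · have := h.1
        omega
    have h2 : ¬ 7 ∣ a i := by
      rcases ha.1 i with h | h
      · have := h.2
        omega
      · have := h.2
        omega
    exact cop h1 h2
  obtain ⟨i0, hi0⟩ := ha.2.1
  have hin : ∃ i, a i % 8 ≠ 1 := ⟨i0, by
    have := hi0.1
    omega⟩
  obtain ⟨C, -, h⟩ := Pool.Agent.R338.EQ.x14 a hcop hin
  refine ⟨C, fun X z hz hzX hlog => ?_⟩
  have key := h Y703.CQ.ff X z hz hzX hlog
  have eB : ((Fintype.piFinset fun i => Pool.Agent.R338.EQ.cls (a i) (X i)).filter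
      fun p => Injective p) = Box a X := by
    unfold Box Pool.Agent.R338.EQ.cls
    ext p
    simp only [mem_filter, Fintype.mem_piFinset]
  have eG : ((Fintype.piFinset fun i => Pool.Agent.R338.EQ.cls (a i) (X i)).filter fun p =>
      Injective p ∧ Y703.CQ.Gd Y703.CQ.ff (univ.image p)).card = good a X := by
    rw [← filter_filter, eB]
    unfold good
    congr 1
    refine filter_congr fun p hp => ?_
    rw [good_iff (adm ha hp) (disc_ne_one ha hp), Y703.CQ.gd_iff, primeFactors_disc hp]
  have eS : (univ.filter fun i => a i % 8 = 1).card = splitCount a := by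
    unfold splitCount
    congr 1
    refine filter_congr fun i _ => ?_
    constructor
    · intro hi
      rcases ha.1 i with h' | h'
      · exact h'
      · have := h'.1
        omega
    · exact fun hi => hi.1
  rw [eG, eB, eS] at key
  exact key

end Pool.Agent.Results.MP_9c97e9_nt.FixedNumberOfPrimes
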