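import Pool.Agent.R428.Q0.Fin
import Pool.Agent.R428.Q0.Dens
import Pool.Agent.R428.Q0.Cls
import Pool.Agent.R426.QB.Fld
import Pool.Agent.Y687.JQ.Fin

/-!
# The 2-part of the strong Birch and Swinnerton-Dyer conjecture over `ℚ` for several twists of
# `X_0(49)` at once: asymptotic independence

`E_D` is the quadratic twist by `D` of `X_0(49) : y² + x y = x³ - x² - 2 x - 1`, and
`z = #E_D(ℚ)_tors² L(E_D, 1) / (Ω ∏ c_p)`, which is zero or the order of `Ш(E_D/ℚ)` according to the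
conjecture. The class consists of the squarefree `D ≥ 1` whose prime factors are `1 mod 8` and split in
`ℚ(√-7)`, or `5 mod 8` and inert in `ℚ(√-7)`. For the `D` of the class the conjecture modulo two is
a theorem: either `z` is a unit at all the primes above two, `L(E_D, 1) ≠ 0`, `E_D(ℚ)` is finite and
`Ш(E_D/ℚ)[2^∞] = 0`, or `z` is integral and a unit at none of them, and `E_D(ℚ)` is infinite or
`Ш(E_D/ℚ)[2] ≠ 0`.

The theorem: let `𝒩` be any finite set of numbers `N` of the class. When `D ≡ 1 mod 8` varies in the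
class, the events that the first case holds for `E_{N D}`, `N ∈ 𝒩`, are asymptotically independent, each
of them of probability `γ = ∏ (1 - 2^{-(2 i + 1)}) = 0.419…`. So for every subset `𝒱` of `𝒩` the
proportion of the `D` for which the first case holds for `E_{N D}` for `N ∈ 𝒱` and the second for
`N ∈ 𝒩 \ 𝒱` is exactly `γ ^ |𝒱| (1 - γ) ^ |𝒩 \ 𝒱|`. In particular, for a positive proportion `γ ^ |𝒩|`
the 2-part of the conjecture holds for all the curves `E_{N D}`, `N ∈ 𝒩`, with `z` a unit.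

Proof: the criterion with a matrix over `𝔽₂` of helper428 (`R428/Q0`, file `TwoPartTwistsX49` of
problem `MP_4a9ea6_nt`), and the joint distribution of such matrices for the symmetric differences with
fixed sets of primes (starting files `Y687/JQ`).
-/

set_option autoImplicit false

open NumberField NumberField.InfinitePlace IsDedekindDomain WeierstrassCurve MeasureTheory

namespace Pool.Agent.Results.MP_9c97e9_nt.IndependentTwistsX49

open Pool.Agent.TH841.NF.D (Sha)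
open Pool.Agent.TH841.SH.D (Pt)

/-- The quadratic twist by `D ≡ 1 mod 4` of `X_0(49) : y² + x y = x³ - x² - 2 x - 1`. -/
def twist (D : ℕ) : WeierstrassCurve ℤ := ⟨1, -((3 * D + 1) / 4), 0, -2 * D ^ 2, -D ^ 3⟩

/-- The curve over `ℚ`. -/
abbrev E (D : ℕ) : WeierstrassCurve ℚ := (twist D).map (Int.castRingHom ℚ)

/-- The equation is minimal at the place `v`: no change of variables over `ℚ` that keeps the
coefficients integral at `v` decreases the order of the discriminant. -/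
def MinimalAt (W : WeierstrassCurve ℚ) (v : HeightOneSpectrum (𝓞 ℚ)) : Prop :=
  ∀ C : VariableChange ℚ, v.valuation ℚ (C • W).a₁ ≤ 1 → v.valuation ℚ (C • W).a₂ ≤ 1 →
    v.valuation ℚ (C • W).a₃ ≤ 1 → v.valuation ℚ (C • W).a₄ ≤ 1 → v.valuation ℚ (C • W).a₆ ≤ 1 →
    v.valuation ℚ (C • W).Δ ≤ v.valuation ℚ W.Δ

/-- `W⁰(ℚ_v)`, the group of the points of `W` over the completion `ℚ_v` with nonsingular reduction:
the point at infinity and the points `(x, y)` where `x` is not integral, or one of the partial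
derivatives of `y² + a₁ x y + a₃ y - x³ - a₂ x² - a₄ x - a₆` is a unit at `(x, y)`.
Here `Pt W ℚ_v` is the group of the points of `W` over `ℚ_v`. -/
noncomputable def nonsing (W : WeierstrassCurve ℚ) (v : HeightOneSpectrum (𝓞 ℚ)) :
    AddSubgroup (Pt W (v.adicCompletion ℚ)) :=
  AddSubgroup.closure {P | ∀ x y h, P = Affine.Point.some x y h →
    1 < Valued.v x ∨
    Valued.v ((W.baseChange (v.adicCompletion ℚ)).a₁ * y -
      (3 * x ^ 2 + 2 * (W.baseChange (v.adicCompletion ℚ)).a₂ * x +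
        (W.baseChange (v.adicCompletion ℚ)).a₄)) = 1 ∨
    Valued.v (2 * y + (W.baseChange (v.adicCompletion ℚ)).a₁ * x +
      (W.baseChange (v.adicCompletion ℚ)).a₃) = 1}

/-- The Tamagawa number `c_v = [W(ℚ_v) : W⁰(ℚ_v)]` of a minimal equation. -/
noncomputable def c (W : WeierstrassCurve ℚ) (v : HeightOneSpectrum (𝓞 ℚ)) : ℕ :=
  (nonsing W v).index

/-- The product of the Tamagawa numbers. -/
noncomputable def Tam (W : WeierstrassCurve ℚ) : ℕ := ∏ᶠ v : HeightOneSpectrum (𝓞 ℚ), c W v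

/-- `4 x³ + b₂ x² + 2 b₄ x + b₆ = (2 y + a₁ x + a₃)²`. -/
def cubic (W : WeierstrassCurve ℤ) (x : ℝ) : ℝ := 4 * x ^ 3 + W.b₂ * x ^ 2 + 2 * W.b₄ * x + W.b₆

/-- `Ω = ∫_{W(ℝ)} |ω|` with `ω = dx / (2 y + a₁ x + a₃)`, as an integral over `x`: two real points lie
over each `x` with `cubic x > 0`. -/
noncomputable def Omega (W : WeierstrassCurve ℤ) : ℝ :=
  2 * ∫ x in {x : ℝ | 0 < cubic W x}, 1 / √(cubic W x)

open Classical in
/-- The order of the torsion subgroup of `W(K)`. -/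
noncomputable def torsOrder {K : Type} [Field K] (W : WeierstrassCurve K) : ℕ :=
  Nat.card (AddCommGroup.torsion W.toAffine.Point)

/-- The order of the Tate-Shafarevich group predicted by the formula, for the value `l` of the
L-function of `E_D` at `s = 1`: `#E_D(ℚ)_tors² l / (Ω ∏ c_v)`. -/
noncomputable def anOrder (D : ℕ) (l : ℂ) : ℂ :=
  l * (torsOrder (E D) : ℂ) ^ 2 / ((Omega (twist D) : ℝ) * (Tam (E D) : ℂ))

/-- The 2-part of the conjecture, in the case that `z` is a unit at two: `L(E_D, s)` has an entire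
continuation `Λ` with `Λ 1 ≠ 0`, `E_D(ℚ)` is finite, the 2-primary part of `Ш` is zero, and the
predicted order of `Ш` is a unit at all the primes above two. -/
def TwoPart (D : ℕ) : Prop :=
  Finite (E D).toAffine.Point ∧ (∀ (n : ℕ) (x : Sha (E D)), 2 ^ n • x = 0 → x = 0) ∧
    ∃ Λ : ℂ → ℂ, Differentiable ℂ Λ ∧ (∀ s : ℂ, 2 < s.re → Λ s = (E D).LSeries s) ∧ Λ 1 ≠ 0 ∧
      ∃ m : ℤ, Odd m ∧ _root_.IsIntegral ℤ (m * anOrder D (Λ 1)) ∧
        _root_.IsIntegral ℤ (m * (anOrder D (Λ 1))⁻¹)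

/-- The second case: `L(E_D, s)` has an entire continuation `Λ`, the predicted order of `Ш` is integral
and not a unit at every prime above two (it may be zero), and `E_D(ℚ)` is infinite or `Ш(E_D/ℚ)` has
an element of order two. -/
def EvenPart (D : ℕ) : Prop :=
  (Finite (E D).toAffine.Point → ∃ x : Sha (E D), x ≠ 0 ∧ x + x = 0) ∧
    ∃ Λ : ℂ → ℂ, Differentiable ℂ Λ ∧ (∀ s : ℂ, 2 < s.re → Λ s = (E D).LSeries s) ∧
      ∀ (Γ : Type) [LinearOrderedCommGroupWithZero Γ] (v : Valuation ℂ Γ), v 2 < 1 →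
        v (anOrder D (Λ 1)) < 1

/-- The class of the numbers `D`: squarefree, and the prime factors of `D` are `1 mod 8` and split in
`ℚ(√-7)`, or `5 mod 8` and inert in `ℚ(√-7)`. -/
def Fam (D : ℕ) : Prop := Squarefree D ∧ ∀ p ∈ D.primeFactors,
  (p % 8 = 1 ∧ (p % 7 = 1 ∨ p % 7 = 2 ∨ p % 7 = 4)) ∨
    (p % 8 = 5 ∧ (p % 7 = 3 ∨ p % 7 = 5 ∨ p % 7 = 6))

/-- The squarefree number which is `N D` up to squares; the quadratic twist of `E_N` by `D` is
the curve of index `tw N D`. -/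
def tw (N D : ℕ) : ℕ := N * D / Nat.gcd N D ^ 2

/-- The product `(1 - 1/2) (1 - 1/8) (1 - 1/32) ⋯`. -/
noncomputable def γ : ℝ := ∏' i : ℕ, (1 - (1 / 2 : ℝ) ^ (2 * i + 1))

section proof

/-- `D` is squarefree and all its prime factors are `≡ 1 mod 4`. -/
def Adm (D : ℕ) : Prop := Squarefree D ∧ ∀ p ∈ D.primeFactors, p % 4 = 1

open Classical in
/-- The prime factors of `D` which are inert in `ℚ(√-7)`. -/
noncomputable def inert (D : ℕ) : Finset ℕ := D.primeFactors.filter fun p => ¬ IsSquare (-7 : ZMod p)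

open Classical in
/-- The prime factors of `D` which split in `ℚ(√-7)`. -/
noncomputable def split (D : ℕ) : Finset ℕ := D.primeFactors.filter fun p => IsSquare (-7 : ZMod p)

open Classical in
/-- `1` if `m` is not a square modulo `p`, and `0` if it is -/
noncomputable def nonsq (p m : ℕ) : ZMod 2 := if IsSquare (m : ZMod p) then 0 else 1

open Classical in
/-- `1` if `-7` is not a fourth power modulo `p`, and `0` if it is -/
noncomputable def nonfourth (p : ℕ) : ZMod 2 := if ∃ y : ZMod p, y ^ 4 = -7 then 0 else 1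

/-- The matrix over the field with two elements, with rows and columns indexed by the prime factors of
`D` which split in `ℚ(√-7)`: the entry at `(i, j)` is `nonsq i j` for `i ≠ j`, and the entry at `(i, i)`
is the sum of `nonfourth i` and of the `nonsq i l` for all the prime factors `l ≠ i` of `D`. -/
noncomputable def mat (D : ℕ) : Matrix (split D) (split D) (ZMod 2) := Matrix.of fun i j =>
  if i = j then nonfourth i + ∑ l ∈ D.primeFactors.erase i, nonsq i l else nonsq i j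

open Pool.Agent.Y698 Pool.Agent.R428.Q0

lemma E_eq {D j : ℕ} (hj : D = 1 + 4 * j) : E D = AX ℚ j := twZ_map hj ℚ

lemma cubic_eq {D j : ℕ} (hj : D = 1 + 4 * j) (x : ℝ) :
    cubic (twist D) x = psD (1 + 4 * j) x := by
  have h1 : (3 * (D : ℤ) + 1) / 4 = 1 + 3 * j := by
    rw [hj]
    push_cast
    omega
  unfold cubic twist WeierstrassCurve.b₂ WeierstrassCurve.b₄ WeierstrassCurve.b₆ psD
  simp only
  rw [h1, hj]
  push_cast
  ring

lemma real_eq {D j : ℕ} (hj : D = 1 + 4 * j) : Omega (twist D) =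
    ∫ x in {x : ℝ | 0 < psD (1 + 4 * j) x}, 2 / Real.sqrt (psD (1 + 4 * j) x) := by
  unfold Omega
  simp only [cubic_eq hj]
  rw [← integral_const_mul]
  congr 1
  funext x
  ring

lemma adm_mod {D : ℕ} (h : Adm D) : D % 4 = 1 := by
  have h1 := Pool.Agent.Y698.prod_mod_four (S := D.primeFactors) h.2
  rwa [Nat.prod_primeFactors_of_squarefree h.1] at h1

/-- an auxiliary prime number -/
lemma exists_aux (D : ℕ) (hD : D ≠ 0) : ∃ r, Pool.Agent.Y698.Inq r ∧ ¬ r ∣ D := by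
  have h1 : IsUnit ((5 : ℕ) : ZMod 28) := by
    rw [ZMod.isUnit_iff_coprime]
    norm_num
  obtain ⟨r, hr, hp, h2⟩ := Nat.forall_exists_prime_gt_and_eq_mod h1 D
  have h3 : r % 28 = 5 := by
    have := (ZMod.natCast_eq_natCast_iff' r 5 28).1 h2
    simpa using this
  refine ⟨r, ⟨hp, by omega, ?_⟩, fun h => ?_⟩
  · rw [sq7_iff hp (by omega)]
    omega
  · exact absurd (Nat.le_of_dvd (Nat.pos_of_ne_zero hD) h) (by omega)

lemma nr_rat : nrRealPlaces ℚ = 1 ∧ nrComplexPlaces ℚ = 0 := by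
  have h := InfinitePlace.card_add_two_mul_card_eq_rank ℚ
  rw [Module.finrank_self] at h
  omega

lemma rat_all (k : ℚ) : ∃ u : ℚ, k = u := ⟨k, (Rat.cast_id k).symm⟩

/-- the data of `D` -/
lemma union_eq (D : ℕ) : inert D ∪ split D = D.primeFactors := by
  classical
  unfold inert split
  rw [Finset.union_comm]
  exact Finset.filter_union_filter_not_eq _ _

lemma disj (D : ℕ) : Disjoint (inert D) (split D) := by
  classical
  rw [Finset.disjoint_left]
  intro p h1 h2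
  exact (Finset.mem_filter.1 h1).2 (Finset.mem_filter.1 h2).2

open Classical in
lemma inq {D : ℕ} (h : Adm D) : ∀ q ∈ inert D, Pool.Agent.Y698.Inq q := fun q hq =>
  ⟨Nat.prime_of_mem_primeFactors (Finset.mem_filter.1 hq).1, h.2 q (Finset.mem_filter.1 hq).1,
    (Finset.mem_filter.1 hq).2⟩

open Classical in
lemma spl {D : ℕ} (h : Adm D) : ∀ q ∈ split D, Pool.Agent.Y698.SG.Spl q := fun q hq =>
  ⟨Nat.prime_of_mem_primeFactors (Finset.mem_filter.1 hq).1, h.2 q (Finset.mem_filter.1 hq).1,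
    (Finset.mem_filter.1 hq).2⟩

lemma mat_eq (D : ℕ) : Pool.Agent.Y698.SG.mat (inert D) (split D) = mat D := by
  classical
  ext i j
  unfold Pool.Agent.Y698.SG.mat mat
  rw [Matrix.of_apply, Matrix.of_apply]
  by_cases hij : i = j
  · rw [if_pos hij, if_pos hij]
    have h1 : D.primeFactors.erase i = inert D ∪ (split D).erase i := by
      rw [← union_eq, Finset.erase_union_distrib, Finset.erase_eq_of_notMem
        (fun h => Finset.disjoint_left.1 (disj D) h i.2)]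
    rw [h1, Finset.sum_union (Finset.disjoint_of_subset_right (Finset.erase_subset _ _) (disj D)),
      ← add_assoc]
    rfl
  · rw [if_neg hij, if_neg hij]
    rfl

theorem core {D : ℕ} (h : Adm D) :
    (∀ v : HeightOneSpectrum (𝓞 ℚ), MinimalAt (E D) v) ∧
    (∃ t : ℕ, Odd t ∧ torsOrder (E D) = 2 * t) ∧
    Tam (E D) = 2 ^ (1 + (inert D).card + 2 * (split D).card) ∧
    ((Finite (E D).toAffine.Point ∧ ∀ x : Sha (E D), x + x = 0 → x = 0) ↔ (mat D).det ≠ 0) ∧
    ((mat D).det ≠ 0 → ∀ (n : ℕ) (x : Sha (E D)), 2 ^ n • x = 0 → x = 0) ∧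
    (Finite (E D).toAffine.Point →
      2 ^ ((split D).card - (mat D).rank) ≤ {x : Sha (E D) | x + x = 0}.encard) ∧
    ∃ Λ : ℂ → ℂ, Differentiable ℂ Λ ∧
      (∀ s : ℂ, 2 < s.re → Λ s = (E D).LSeries s) ∧
      (∃ m : ℤ, Odd m ∧ _root_.IsIntegral ℤ (m * anOrder D (Λ 1))) ∧
      (∀ (Γ : Type) [LinearOrderedCommGroupWithZero Γ] (v : Valuation ℂ Γ), v 2 < 1 →
        v (anOrder D (Λ 1)) ≤ 1 ∧ (v (anOrder D (Λ 1)) = 1 ↔ (mat D).det ≠ 0)) ∧
      ((mat D).det ≠ 0 → Λ 1 ≠ 0 ∧ ∃ m : ℤ, Odd m ∧ _root_.IsIntegral ℤ (m * anOrder D (Λ 1)) ∧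
        _root_.IsIntegral ℤ (m * (anOrder D (Λ 1))⁻¹)) := by
  classical
  have hm4 := adm_mod h
  obtain ⟨r, hr, hrD⟩ := exists_aux D h.1.ne_zero
  have hrf : Fact r.Prime := ⟨hr.pr⟩
  have hM : IsCyclotomicExtension {r} ℚ (CyclotomicField r ℚ) := Pool.Agent.Y698.cyc_inst r
  set Q := inert D with hQd
  set P := split D with hPd
  have hQ := inq h
  have hP := spl h
  have hd : DQ r Q P := ⟨hr, fun q hq => ⟨hQ q hq, by
    rintro rfl
    exact hrD (Nat.dvd_of_mem_primeFactors (Finset.mem_filter.1 hq).1)⟩, hP⟩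
  have hDu : ∏ q ∈ Q ∪ P, q = D := by
    rw [hQd, hPd, union_eq, Nat.prod_primeFactors_of_squarefree h.1]
  obtain ⟨j, hj'⟩ : ∃ j, D = 1 + 4 * j := ⟨D / 4, by omega⟩
  have hj : ∏ q ∈ Q ∪ P, q = 1 + 4 * j := hDu.trans hj'
  have hn : Module.finrank ℚ ℚ = 2 ^ 0 := by rw [Module.finrank_self, pow_zero]
  have hE := E_eq hj'
  have han : ∀ l : ℂ, anOrder D l = Pool.Agent.Y698.SG.quoT ℚ j l := by
    intro l
    unfold anOrder torsOrder
    rw [hE, real_eq hj']
    unfold Pool.Agent.Y698.SG.quoT Pool.Agent.Y698.SG.tnum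
    have hT : Tam (Pool.Agent.Y698.AX ℚ j) = ∏ᶠ v, Pool.Agent.Y698.tam (Pool.Agent.Y698.AX ℚ j) v := rfl
    rw [hT, Rat.numberField_discr, nr_rat.1, nr_rat.2, pow_one, pow_zero]
    generalize (∏ᶠ v, Pool.Agent.Y698.tam (Pool.Agent.Y698.AX ℚ j) v : ℕ) = t
    simp
  have hst : torsOrder (E D) = Pool.Agent.Y698.SG.tnum (Pool.Agent.Y698.AX ℚ j) := by
    unfold torsOrder Pool.Agent.Y698.SG.tnum
    rw [hE]
  have htam : Tam (E D) = 2 ^ (1 + Q.card + 2 * P.card) := by
    rw [hE]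
    have h1 := tam0 (CyclotomicField r ℚ) ℚ hn hd hj
    rw [← add_assoc] at h1
    exact h1
  have hmat := mat_eq D
  rw [← hmat]
  obtain ⟨Λ, h1, h2, h3⟩ := level0 (CyclotomicField r ℚ) ℚ hn hd hj
  simp only [han, hst]
  rw [hE]
  refine ⟨fun v => Pool.Agent.Y698.SG.minimal_E (CyclotomicField r ℚ) ℚ hr.ns
      (fun q hq => ⟨hd.gp q hq, hd.ne q hq⟩) hj v,
    Pool.Agent.Y698.SG.tnum_AX (CyclotomicField r ℚ) ℚ hr.ns j, by rw [← hE]; exact htam,
    ⟨fun h4 => conv0 (CyclotomicField r ℚ) ℚ hd hj h4.1 h4.2, fun h4 =>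
      ⟨mw_finite0 ℚ rat_all hQ hP h4 hj, fun x hx => sha_two0 ℚ rat_all hQ hP h4 hj x hx⟩⟩,
    fun h4 n x hx => sha_pow0 ℚ rat_all hQ hP h4 hj x n hx, ?_, Λ, h1, h2, ?_,
    fun Γ _ v hv => h3 Γ v hv, ?_⟩
  · intro hf
    obtain ⟨f, hfi, hf2⟩ := sha_card1 (CyclotomicField r ℚ) ℚ hd hj hf
    have h4 : Set.range f ⊆ {x : Sha (Pool.Agent.Y698.AX ℚ j) | x + x = 0} := by
      rintro _ ⟨x, rfl⟩
      exact hf2 x
    have h5 := hfi.encard_range.trans (Set.encard_le_encard h4)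
    rw [ENat.card_eq_coe_fintype_card, Fintype.card_fin] at h5
    have h6 : (2 ^ (P.card - (Pool.Agent.Y698.SG.mat Q P).rank) : ℕ∞) =
      ((2 ^ (P.card - (Pool.Agent.Y698.SG.mat Q P).rank) : ℕ) : ℕ∞) := by push_cast; rfl
    rw [h6]
    exact h5
  · exact Pool.Agent.Y698.int_of_val fun Γ _ v hv => (h3 Γ v hv).1
  · intro hC
    have hz : ∀ (Γ : Type) [LinearOrderedCommGroupWithZero Γ] (v : Valuation ℂ Γ), v 2 < 1 →
        v (Pool.Agent.Y698.SG.quoT ℚ j (Λ 1)) = 1 := fun Γ _ v hv => ((h3 Γ v hv).2).2 hC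
    refine ⟨?_, ?_⟩
    · intro h0
      refine Pool.Agent.Y698.SG.exists_val2 fun Γ _ v hv => ?_
      have h5 := hz Γ v hv
      rw [h0] at h5
      unfold Pool.Agent.Y698.SG.quoT at h5
      rw [zero_mul, zero_mul, zero_div, map_zero] at h5
      exact zero_ne_one h5
    · obtain ⟨m₁, hm₁, i₁⟩ := Pool.Agent.Y698.int_of_val
        (x := Pool.Agent.Y698.SG.quoT ℚ j (Λ 1)) fun Γ _ v hv => (hz Γ v hv).le
      obtain ⟨m₂, hm₂, i₂⟩ := Pool.Agent.Y698.int_of_val
        (x := (Pool.Agent.Y698.SG.quoT ℚ j (Λ 1))⁻¹) fun Γ _ v hv => by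
          rw [map_inv₀, hz Γ v hv, inv_one]
      refine ⟨m₁ * m₂, hm₁.mul hm₂, ?_, ?_⟩
      · have e : ((m₁ * m₂ : ℤ) : ℂ) * Pool.Agent.Y698.SG.quoT ℚ j (Λ 1) =
            (m₂ : ℂ) * ((m₁ : ℂ) * Pool.Agent.Y698.SG.quoT ℚ j (Λ 1)) := by
          push_cast; ring
        rw [e]
        exact IsIntegral.mul (isIntegral_algebraMap (R := ℤ) (A := ℂ) (x := m₂)) i₁
      · have e : ((m₁ * m₂ : ℤ) : ℂ) * (Pool.Agent.Y698.SG.quoT ℚ j (Λ 1))⁻¹ =
            (m₁ : ℂ) * ((m₂ : ℂ) * (Pool.Agent.Y698.SG.quoT ℚ j (Λ 1))⁻¹) := by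
          push_cast; ring
        rw [e]
        exact IsIntegral.mul (isIntegral_algebraMap (R := ℤ) (A := ℂ) (x := m₁)) i₂

/-- the 2-part of the conjecture holds exactly in the nonsingular case -/
theorem two_iff {D : ℕ} (h : Adm D) : TwoPart D ↔ (mat D).det ≠ 0 := by
  obtain ⟨-, -, -, h4, h5, -, Λ, h6, h7, -, -, h8⟩ := core h
  constructor
  · rintro ⟨hf, hs, -⟩
    exact h4.1 ⟨hf, fun x hx => hs 1 x (by rw [pow_one, two_nsmul]; exact hx)⟩
  · intro hd
    obtain ⟨h9, h10⟩ := h8 hd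
    exact ⟨(h4.2 hd).1, h5 hd, Λ, h6, h7, h9, h10⟩


/-- the second case holds exactly in the singular case -/
theorem even_iff {D : ℕ} (h : Adm D) : EvenPart D ↔ ¬ (mat D).det ≠ 0 := by
  obtain ⟨-, -, -, h4, h5, -, Λ, h6, h7, h8, h9, -⟩ := core h
  constructor
  · rintro ⟨h1, -⟩ hd
    obtain ⟨hf, hs⟩ := h4.2 hd
    obtain ⟨x, hx0, hx⟩ := h1 hf
    exact hx0 (hs x hx)
  · intro hd
    refine ⟨fun hf => ?_, Λ, h6, h7, fun Γ _ v hv => lt_of_le_of_ne (h9 Γ v hv).1 fun he =>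
      hd ((h9 Γ v hv).2.1 he)⟩
    by_contra hcon
    push Not at hcon
    refine hd (h4.1 ⟨hf, fun x hx => ?_⟩)
    by_contra hx0
    exact hcon x hx0 hx

open Pool.Agent.R426.QB (Ac Ac8 ac8_iff prod_symmDiff_nat sqf_prod) in
lemma fam_ac (D : ℕ) : Fam D ↔ Ac D :=
  and_congr_right fun _ => forall₂_congr fun _ hp =>
    (and_iff_right (Nat.prime_of_mem_primeFactors hp)).symm

lemma fam_adm {D : ℕ} (h : Fam D) : Adm D :=
  ⟨h.1, fun p hp => by rcases h.2 p hp with h1 | h1 <;> omega⟩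

lemma fam_gd {D : ℕ} (h : Fam D) :
    (mat D).det ≠ 0 ↔ Pool.Agent.Y703.CQ.Gd Pool.Agent.Y698.SG.n4 D.primeFactors := by
  classical
  rw [gd_iff, ← mat_eq]
  have key : ∀ p ∈ D.primeFactors, (IsSquare (-7 : ZMod p) ↔ p % 8 = 1) := by
    intro p hp
    have hpp := Nat.prime_of_mem_primeFactors hp
    rw [sq7_iff hpp ((fam_adm h).2 p hp)]
    rcases h.2 p hp with h1 | h1
    · exact iff_of_true h1.2 h1.1
    · refine iff_of_false ?_ ?_
      · omega
      · omega
  have e1 : inert D = D.primeFactors.filter fun p => p % 8 ≠ 1 := by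
    unfold inert
    refine Finset.filter_congr fun p hp => ?_
    rw [key p hp]
  have e2 : split D = D.primeFactors.filter fun p => p % 8 = 1 := by
    unfold split
    refine Finset.filter_congr fun p hp => ?_
    rw [key p hp]
  rw [e1, e2]

/-- the twist in terms of the prime factors -/
lemma tw_eq {N D : ℕ} (hN : Squarefree N) (hD : Squarefree D) :
    tw N D = ∏ p ∈ symmDiff D.primeFactors N.primeFactors, p := by
  have h1 := Pool.Agent.R426.QB.prod_symmDiff_nat D.primeFactors N.primeFactors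
  rw [Nat.prod_primeFactors_of_squarefree hN, Nat.prod_primeFactors_of_squarefree hD,
    ← Nat.primeFactors_gcd hD.ne_zero hN.ne_zero, Nat.prod_primeFactors_of_squarefree
      (hD.squarefree_of_dvd (Nat.gcd_dvd_left D N))] at h1
  unfold tw
  rw [mul_comm N D, h1, Nat.gcd_comm N D]
  exact Nat.mul_div_cancel _ (pow_pos (Nat.gcd_pos_of_pos_left _ (Nat.pos_of_ne_zero hD.ne_zero)) 2)

lemma tw_pf {N D : ℕ} (hN : Fam N) (hD : Fam D) :
    (tw N D).primeFactors = symmDiff D.primeFactors N.primeFactors := by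
  rw [tw_eq hN.1 hD.1]
  refine Nat.primeFactors_prod fun p hp => ?_
  rcases Finset.mem_symmDiff.1 hp with h | h
  · exact Nat.prime_of_mem_primeFactors h.1
  · exact Nat.prime_of_mem_primeFactors h.1

lemma tw_fam {N D : ℕ} (hN : Fam N) (hD : Fam D) : Fam (tw N D) := by
  refine ⟨?_, fun p hp => ?_⟩
  · rw [tw_eq hN.1 hD.1]
    refine Pool.Agent.R426.QB.sqf_prod fun p hp => ?_
    rcases Finset.mem_symmDiff.1 hp with h | h
    · exact Nat.prime_of_mem_primeFactors h.1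
    · exact Nat.prime_of_mem_primeFactors h.1
  · rw [tw_pf hN hD] at hp
    rcases Finset.mem_symmDiff.1 hp with h | h
    · exact hD.2 p h.1
    · exact hN.2 p h.1

/-- inclusion and exclusion -/
theorem incl_excl {α : Type} [DecidableEq α] (A : ℕ → Prop) (P : α → ℕ → Prop) {c : ℝ}
    [DecidablePred A] (d : ∀ 𝒱 ℬ : Finset α, DecidablePred fun D : ℕ => A D ∧ (∀ N ∈ 𝒱, P N D) ∧
      ∀ N ∈ ℬ, ¬ P N D)
    (𝒩 : Finset α) (h : ∀ 𝒲 ⊆ 𝒩, Filter.Tendsto (fun X : ℕ =>
      (((Finset.Icc 1 X).filter fun D => A D ∧ (∀ N ∈ 𝒲, P N D) ∧ ∀ N ∈ (∅ : Finset α),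
        ¬ P N D).card : ℝ) /
      (((Finset.Icc 1 X).filter A).card : ℝ)) Filter.atTop (nhds (c ^ 𝒲.card))) (ℬ : Finset α) :
    ∀ 𝒱 : Finset α, ℬ ⊆ 𝒩 → 𝒱 ⊆ 𝒩 → Disjoint ℬ 𝒱 → Filter.Tendsto (fun X : ℕ =>
      (((Finset.Icc 1 X).filter fun D => A D ∧ (∀ N ∈ 𝒱, P N D) ∧ ∀ N ∈ ℬ, ¬ P N D).card : ℝ) /
      (((Finset.Icc 1 X).filter A).card : ℝ)) Filter.atTop
        (nhds (c ^ 𝒱.card * (1 - c) ^ ℬ.card)) := by
  induction ℬ using Finset.induction_on with
  | empty =>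
    intro 𝒱 _ h2 _
    rw [Finset.card_empty, pow_zero, mul_one]
    exact h 𝒱 h2
  | insert a ℬ ha ih =>
    intro 𝒱 h1 h2 h3
    rw [Finset.disjoint_insert_left] at h3
    have h4 := ih 𝒱 ((Finset.subset_insert _ _).trans h1) h2 h3.2
    have h5 := ih (insert a 𝒱) ((Finset.subset_insert _ _).trans h1)
      (Finset.insert_subset (h1 (Finset.mem_insert_self _ _)) h2)
      (Finset.disjoint_insert_right.2 ⟨ha, h3.2⟩)
    have h6 := h4.sub h5
    rw [Finset.card_insert_of_notMem h3.1] at h6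
    rw [Finset.card_insert_of_notMem ha]
    have e : c ^ 𝒱.card * (1 - c) ^ ℬ.card - c ^ (𝒱.card + 1) * (1 - c) ^ ℬ.card =
        c ^ 𝒱.card * (1 - c) ^ (ℬ.card + 1) := by ring
    rw [e] at h6
    refine h6.congr fun X => ?_
    rw [← sub_div]
    congr 1
    have h7 : ((Finset.Icc 1 X).filter fun D => A D ∧ (∀ N ∈ 𝒱, P N D) ∧ ∀ N ∈ ℬ, ¬ P N D) =
        ((Finset.Icc 1 X).filter fun D => A D ∧ (∀ N ∈ insert a 𝒱, P N D) ∧ ∀ N ∈ ℬ, ¬ P N D) ∪
        ((Finset.Icc 1 X).filter fun D => A D ∧ (∀ N ∈ 𝒱, P N D) ∧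
          ∀ N ∈ insert a ℬ, ¬ P N D) := by
      ext D
      simp only [Finset.mem_filter, Finset.mem_union, Finset.forall_mem_insert]
      by_cases hP : P a D <;> simp [hP]
    have h8 : Disjoint ((Finset.Icc 1 X).filter fun D => A D ∧ (∀ N ∈ insert a 𝒱, P N D) ∧
          ∀ N ∈ ℬ, ¬ P N D)
        ((Finset.Icc 1 X).filter fun D => A D ∧ (∀ N ∈ 𝒱, P N D) ∧
          ∀ N ∈ insert a ℬ, ¬ P N D) := by
      rw [Finset.disjoint_filter]
      rintro D - ⟨-, h9, -⟩ ⟨-, -, h10⟩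
      exact h10 a (Finset.mem_insert_self _ _) (h9 a (Finset.mem_insert_self _ _))
    rw [h7, Finset.card_union_of_disjoint h8]
    push_cast
    ring

end proof

open Classical in
/-- **Asymptotic independence of the 2-parts of the conjecture for the twists of `X_0(49)`.** -/
theorem result :
    (∀ N D : ℕ, Fam N → Fam D → Fam (tw N D) ∧ (TwoPart (tw N D) ↔ ¬ EvenPart (tw N D))) ∧
    (∀ 𝒩 𝒱 : Finset ℕ, (∀ N ∈ 𝒩, Fam N) → 𝒱 ⊆ 𝒩 →
      Filter.Tendsto (fun X : ℕ =>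
        (((Finset.Icc 1 X).filter fun D => (Fam D ∧ D % 8 = 1) ∧ (∀ N ∈ 𝒱, TwoPart (tw N D)) ∧
          ∀ N ∈ 𝒩 \ 𝒱, EvenPart (tw N D)).card : ℝ) /
        (((Finset.Icc 1 X).filter fun D => Fam D ∧ D % 8 = 1).card : ℝ)) Filter.atTop
      (nhds (γ ^ 𝒱.card * (1 - γ) ^ (𝒩 \ 𝒱).card))) ∧
    0.4194 < γ ∧ γ < 0.4195 := by
  have key : ∀ N D : ℕ, Fam N → Fam D → (EvenPart (tw N D) ↔ ¬ TwoPart (tw N D)) := by
    intro N D hN hD
    have h1 := fam_adm (tw_fam hN hD)
    rw [even_iff h1, two_iff h1]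
  have key2 : ∀ N D : ℕ, Fam N → Fam D → (TwoPart (tw N D) ↔
      Pool.Agent.Y703.CQ.Gd Pool.Agent.Y698.SG.n4 (symmDiff D.primeFactors N.primeFactors)) := by
    intro N D hN hD
    have h1 := tw_fam hN hD
    rw [two_iff (fam_adm h1), fam_gd h1, tw_pf hN hD]
  refine ⟨fun N D hN hD => ⟨tw_fam hN hD, by rw [key N D hN hD, not_not]⟩, fun 𝒩 𝒱 hF hV => ?_,
    Pool.Agent.Y948.CQ.t_C2.2.2.2.1, Pool.Agent.Y948.CQ.t_C2.2.2.2.2⟩
  have h := incl_excl (fun D : ℕ => Fam D ∧ D % 8 = 1) (fun N D => TwoPart (tw N D))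
    (c := γ) (fun 𝒱 ℬ D => Classical.propDecidable _) 𝒩 (fun 𝒲 hW => ?_) (𝒩 \ 𝒱) 𝒱
      Finset.sdiff_subset hV Finset.sdiff_disjoint
  · refine h.congr fun X => ?_
    refine congrArg₂ (fun a b : ℕ => (a : ℝ) / (b : ℝ)) (congrArg Finset.card ?_) rfl
    ext D
    simp only [Finset.mem_filter]
    refine and_congr_right fun _ => and_congr_right fun hD => and_congr_right fun _ => ?_
    refine forall₂_congr fun N hN => ?_
    rw [key N D (hF N (Finset.mem_sdiff.1 hN).1) hD.1]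
  · have hinj : Set.InjOn Nat.primeFactors (𝒲 : Set ℕ) := by
      intro N hN N' hN' he
      have e1 := Nat.prod_primeFactors_of_squarefree (hF N (hW hN)).1
      have e2 := Nat.prod_primeFactors_of_squarefree (hF N' (hW hN')).1
      rw [← e1, he, e2]
    have hcard : (𝒲.image Nat.primeFactors).card = 𝒲.card := Finset.card_image_of_injOn hinj
    have hOk : Pool.Agent.Y687.JQ.OkW ((𝒲.image Nat.primeFactors).biUnion id)
        (𝒲.image Nat.primeFactors) := by
      refine ⟨fun u hu => ?_, fun V hV => Finset.subset_biUnion_of_mem id hV⟩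
      obtain ⟨V, hV, huV⟩ := Finset.mem_biUnion.1 hu
      obtain ⟨N, hN, rfl⟩ := Finset.mem_image.1 hV
      have hu' : u ∈ N.primeFactors := huV
      have h1 := (fam_adm (hF N (hW hN))).2 u hu'
      refine ⟨Nat.prime_of_mem_primeFactors hu', ?_, ?_⟩
      · rintro rfl
        omega
      · rintro rfl
        omega
    have h := Pool.Agent.Y687.JQ.t_JDEN {5} {0} Pool.Agent.Y698.SG.n4 _ _
      Pool.Agent.R428.Q0.ok5 hOk
    rw [hcard] at h
    have e0 : γ = Pool.Agent.Y703.CQ.c2 := rfl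
    rw [e0]
    have hAc : ∀ D : ℕ, (Fam D ∧ D % 8 = 1) ↔
        (Squarefree D ∧ Pool.Agent.Y703.CQ.Cl {5} {0} D.primeFactors) := by
      intro D
      rw [← Pool.Agent.R426.QB.ac8_iff]
      unfold Pool.Agent.R426.QB.Ac8
      rw [fam_ac]
    refine h.congr fun X => ?_
    refine congrArg₂ (fun a b : ℕ => (a : ℝ) / (b : ℝ)) (congrArg Finset.card ?_)
      (congrArg Finset.card ?_)
    · ext D
      simp only [Finset.mem_filter, Finset.notMem_empty, false_imp_iff, implies_true, and_true]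
      refine and_congr_right fun _ => ?_
      rw [← and_assoc, ← hAc D]
      refine and_congr_right fun hD => ?_
      unfold Pool.Agent.Y687.JQ.GdJ
      constructor
      · intro h1 N hN
        exact (key2 N D (hF N (hW hN)) hD.1).2 (h1 _ (Finset.mem_image_of_mem _ hN))
      · intro h1 U hU
        obtain ⟨N, hN, rfl⟩ := Finset.mem_image.1 hU
        exact (key2 N D (hF N (hW hN)) hD.1).1 (h1 N hN)
    · ext D
      simp only [Finset.mem_filter]
      refine and_congr_right fun _ => ?_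
      rw [← hAc D]

end Pool.Agent.Results.MP_9c97e9_nt.IndependentTwistsX49
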