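import Pool.Agent.Results.MP_696deb_nt.JointProportionX14X49
import Pool.Agent.Results.MP_4a9ea6_nt.TwoPartTwistsX14

/-!
# The 2-part of the formula at the central point for any finite number of twists of `X_0(14)` and
# `X_0(49)` at the same time: the exact proportions

`D` runs over the class of the squarefree numbers `D ≥ 1`, `D ≡ 1 mod 8`, whose prime factors are
`1 mod 8` and split in `ℚ(√-7)` or `5 mod 8` and inert in `ℚ(√-7)`; for `M` and `D` in the class the
squarefree part `tw M D` of `M D` is in the class. For a twist `E` by a number of the class of one of the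
curves `X_0(14)` (no complex multiplication) or `X_0(49)` (complex multiplication) let
`z = #E(ℚ)_tors² L(E, 1) / (Ω ∏ c_p)`, and say that the 2-part of the formula holds with `z` a unit if
`E(ℚ)` is finite, `Ш(E/ℚ)[2^∞] = 0`, `L(E, s)` is entire, `L(E, 1) ≠ 0` and `z` is a unit at two. This
is the case iff `E(ℚ)` is finite and `Ш(E/ℚ)[2] = 0`. Let `T` be any finite set of pairs (curve, `M`)
and `V` a subset of `T`. Then exactly the proportion `c ^ |V| (1 - c) ^ |T \ V|` of the `D` of the class,
`c = ∏_{i ≥ 0} (1 - 2^{-(2i+1)}) = 0.4194...`, has the property that the 2-part of the formula with `z` a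
unit holds for the twist by `tw M D` for all the pairs in `V` and for no other pair in `T`: the 2-parts
of the formula for the twists of curves which are not isogenous are asymptotically independent.

The criteria for a single curve are those of helper428 (`MP_4a9ea6_nt/TwoPartTwistsX49` and
`TwoPartTwistsX14`), the joint law is that of `MP_696deb_nt/JointProportionX14X49` and of helper494
(`Pool/Agent/R494/SQ8`, `SQ9`).
-/

set_option autoImplicit false

open NumberField IsDedekindDomain Filter Topology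

namespace Pool.Agent.Results.MP_9c97e9_nt.JointTwoPartX14X49

open Pool.Agent.Results.MP_696deb_nt.JointProportionX14X49 (Family tw num HasProportion c)

/-- The 2-part of the formula, with `z` a unit at two, for the twist by `D` of `X_0(49)` (`e = true`) and
of `X_0(14)` (`e = false`): the equation of the twist by `D` of `X_0(14)` (`X_0(49)`) is
`y² + x y + y = x³ + ((D - 1)/4) x² + ((9 D² - 1)/2) x - (23 D³ + 1)/4`
(`y² + x y = x³ - (3 D + 1)/4 x² - 2 D² x - D³`); it is minimal, the group of the rational points is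
finite, `Ш[2^∞] = 0`, the L-function is entire and does not vanish at `1`, and `z` is a unit at two. -/
def TwoPart (e : Bool) (D : ℕ) : Prop :=
  if e = true then
    (∀ v : HeightOneSpectrum (𝓞 ℚ), Pool.Agent.Results.MP_4a9ea6_nt.TwoPartTwistsX49.MinimalAt
      (Pool.Agent.Results.MP_4a9ea6_nt.TwoPartTwistsX49.E D) v) ∧
    Pool.Agent.Results.MP_4a9ea6_nt.TwoPartTwistsX49.TwoPart D
  else Pool.Agent.Results.MP_4a9ea6_nt.TwoPartTwistsX14.TwoPart
    (Pool.Agent.Results.MP_4a9ea6_nt.TwoPartTwistsX14.twist D)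

/-- The same twists have finitely many rational points and no element of order two in `Ш`. -/
def RankZeroShaTwo (e : Bool) (D : ℕ) : Prop :=
  if e = true then Finite (Pool.Agent.Results.MP_4a9ea6_nt.TwoPartTwistsX49.E D).toAffine.Point ∧
    ∀ x : Pool.Agent.TH841.NF.D.Sha (Pool.Agent.Results.MP_4a9ea6_nt.TwoPartTwistsX49.E D),
      2 • x = 0 → x = 0
  else Pool.Agent.Results.MP_4a9ea6_nt.TwoPartTwistsX14.NoSelmer D

section proof

open Pool.Agent.Results.MP_696deb_nt.JointProportionX14X49 (Good fam_adm fam_adm14 g49_iff tw_pf fam_tw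
  ac_tw law)
open Pool.Agent.Results.MP_4a9ea6_nt (TwoPartTwistsX49.two_iff TwoPartTwistsX49.fam_two
  TwoPartTwistsX49.core TwoPartTwistsX14.adm_iff TwoPartTwistsX14.criterion
  TwoPartTwistsX14.good_iff)

theorem two_true {D : ℕ} (h : Family D) : TwoPart true D ↔
    Pool.Agent.Results.MP_4a9ea6_nt.TwoPartTwistsX49.TwoPart D := by
  unfold TwoPart
  rw [if_pos rfl]
  exact and_iff_right (TwoPartTwistsX49.core (fam_adm h)).1

theorem two_sel {e : Bool} {D : ℕ} (h : Family D) (h1 : e = true ∨ D ≠ 1) :
    TwoPart e D ↔ RankZeroShaTwo e D := by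
  cases e
  · have h2 : D ≠ 1 := by simpa using h1
    have h3 : (D : ℤ) ≠ 1 := by exact_mod_cast h2
    have h4 := (TwoPartTwistsX14.adm_iff _).2 (fam_adm14 h)
    have h5 := (TwoPartTwistsX14.criterion h4 h3).2.2
    have h6 : Pool.Agent.Results.MP_4a9ea6_nt.TwoPartTwistsX14.TwoPart
        (Pool.Agent.Results.MP_4a9ea6_nt.TwoPartTwistsX14.twist D) ↔
          Pool.Agent.Results.MP_4a9ea6_nt.TwoPartTwistsX14.NoSelmer D := h5.2.symm.trans h5.1.symm
    unfold TwoPart RankZeroShaTwo
    simpa using h6
  · have h4 := (TwoPartTwistsX49.core (fam_adm h)).2.2.2.1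
    have h5 := (TwoPartTwistsX49.two_iff (fam_adm h)).trans h4.symm
    rw [two_true h, h5]
    unfold RankZeroShaTwo
    rw [if_pos rfl]
    simp only [two_nsmul]

/-- the criterion in the form of the joint law -/
theorem two_good {e : Bool} {D : ℕ} (h : Family D) (h1 : e = true ∨ D ≠ 1) :
    TwoPart e D ↔ Good e D := by
  cases e
  · have h2 : D ≠ 1 := by simpa using h1
    have h3 : (D : ℤ) ≠ 1 := by exact_mod_cast h2
    have h4 := fam_adm14 h
    have h5 := TwoPartTwistsX14.good_iff h4 h3
    have h6 := Pool.Agent.Results.MP_696deb_nt.ExactProportion.rank_iff h4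
    have h7 : Good false D ↔ (Pool.Agent.Y687.MQ.matD (D : ℤ)).det ≠ 0 := h6
    unfold TwoPart
    rw [if_neg (by decide), h7]
    exact h5
  · rw [g49_iff h, two_true h]
    exact TwoPartTwistsX49.fam_two h

theorem tw_one {M D : ℕ} (hM : Family M) (hD : Family D) (h : tw M D = 1) : D = M := by
  have h1 := tw_pf hM hD
  rw [h, Nat.primeFactors_one] at h1
  have h2 : D.primeFactors = M.primeFactors := symmDiff_eq_bot.1 h1.symm
  rw [← Nat.prod_primeFactors_of_squarefree hD.1, ← Nat.prod_primeFactors_of_squarefree hM.1, h2]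

/-- the class is infinite -/
theorem inf : {D : ℕ | Family D}.Infinite := by
  have h := Nat.infinite_setOfPred_prime_and_eq_mod (q := 56) (a := 1) isUnit_one
  refine h.mono fun p hp => ?_
  obtain ⟨h1, h2⟩ := hp
  have h3 : p % 56 = 1 := by
    have := (ZMod.natCast_eq_natCast_iff' p 1 56).1 (by simpa using h2)
    simpa using this
  refine ⟨h1.squarefree, by omega, fun q hq => ?_⟩
  rw [Nat.Prime.primeFactors h1, Finset.mem_singleton] at hq
  subst hq
  exact Or.inl ⟨by omega, Or.inl (by omega)⟩

theorem num_atTop : Tendsto (fun X : ℕ => (num (fun _ => True) X : ℝ)) atTop atTop := by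
  classical
  refine tendsto_natCast_atTop_atTop.comp (tendsto_atTop_atTop.2 fun b => ?_)
  obtain ⟨t, ht, hb⟩ := inf.exists_subset_card_eq b
  refine ⟨t.sup id, fun X hX => ?_⟩
  rw [← hb]
  unfold num
  refine Finset.card_le_card fun D hD => ?_
  have h1 : Family D := ht hD
  have h2 : D ≤ X := (Finset.le_sup (f := id) hD).trans hX
  have h3 : 1 ≤ D := Nat.pos_of_ne_zero h1.1.ne_zero
  simp only [Finset.mem_filter, and_true]
  exact ⟨Finset.mem_Icc.2 ⟨h3, h2⟩, h1⟩

/-- a finite number of exceptions -/
theorem num_le {Q R : ℕ → Prop} (F : Finset ℕ) (h : ∀ D, Family D → D ∉ F → Q D → R D) (X : ℕ) :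
    num Q X ≤ num R X + F.card := by
  classical
  unfold num
  refine (Finset.card_le_card (t := ((Finset.Icc 1 X).filter fun D => Family D ∧ R D) ∪ F)
    fun D hD => ?_).trans (Finset.card_union_le _ _)
  rw [Finset.mem_filter] at hD
  rw [Finset.mem_union, Finset.mem_filter]
  by_cases hF : D ∈ F
  · exact Or.inr hF
  · exact Or.inl ⟨hD.1, hD.2.1, h D hD.2.1 hF hD.2.2⟩

theorem prop_of {Q R : ℕ → Prop} (F : Finset ℕ) (h : ∀ D, Family D → D ∉ F → (Q D ↔ R D)) {θ : ℝ}
    (hR : HasProportion R θ) : HasProportion Q θ := by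
  unfold HasProportion at hR ⊢
  have h1 : Tendsto (fun X : ℕ => (num Q X : ℝ) / (num (fun _ => True) X : ℝ) -
      (num R X : ℝ) / (num (fun _ => True) X : ℝ)) atTop (𝓝 0) := by
    have h2 : Tendsto (fun X : ℕ => (F.card : ℝ) / (num (fun _ => True) X : ℝ)) atTop (𝓝 0) :=
      tendsto_const_nhds.div_atTop num_atTop
    refine squeeze_zero_norm (fun X => ?_) h2
    have h3 := num_le F (fun D hD hF hQ => (h D hD hF).1 hQ) X
    have h4 := num_le F (fun D hD hF hR => (h D hD hF).2 hR) X
    have h5 : (num Q X : ℝ) ≤ num R X + F.card := by exact_mod_cast h3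
    have h6 : (num R X : ℝ) ≤ num Q X + F.card := by exact_mod_cast h4
    have h7 : (0 : ℝ) ≤ num (fun _ => True) X := Nat.cast_nonneg _
    rw [← sub_div, Real.norm_eq_abs, abs_div, abs_of_nonneg h7]
    refine div_le_div_of_nonneg_right (abs_le.2 ⟨by linarith, by linarith⟩) h7
  have h2 := h1.add hR
  rw [zero_add] at h2
  exact h2.congr fun X => by ring

end proof

open Pool.Agent.Results.MP_696deb_nt.JointProportionX14X49 (fam_tw ac_tw law) in
theorem result :
    (∀ (e : Bool) (D : ℕ), Family D → (e = true ∨ D ≠ 1) → (TwoPart e D ↔ RankZeroShaTwo e D)) ∧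
    (∀ M D : ℕ, Family M → Family D → Family (tw M D) ∧ M * D = tw M D * Nat.gcd M D ^ 2) ∧
    (∀ T V : Finset (Bool × ℕ), (∀ x ∈ T, Family x.2) → V ⊆ T →
      HasProportion (fun D => ∀ x ∈ T, (TwoPart x.1 (tw x.2 D) ↔ x ∈ V))
        (c ^ V.card * (1 - c) ^ (T.card - V.card))) ∧
    0.4194 < c ∧ c < 0.4195 := by
  classical
  refine ⟨fun e D h h1 => two_sel h h1, fun M D hM hD => ⟨fam_tw hM hD, (ac_tw hM hD).2⟩,
    fun T V hT hV => ?_, ?_⟩
  · have h := law hT hV
    rw [Finset.card_sdiff_of_subset hV] at h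
    refine prop_of (T.image Prod.snd) (fun D hD hF => ?_) h
    refine forall₂_congr fun x hx => ?_
    rw [two_good (fam_tw (hT x hx) hD) (Or.inr fun h1 => hF ?_)]
    rw [tw_one (hT x hx) hD h1]
    exact Finset.mem_image_of_mem _ hx
  · have h := Pool.Agent.Y948.CQ.t_C2
    exact ⟨h.2.2.2.1, h.2.2.2.2⟩

end Pool.Agent.Results.MP_9c97e9_nt.JointTwoPartX14X49
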